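import Pool.Agent.TH716.CF.Defs

/-! The sheared triangle, its flattening, and the number of its lattice points. -/

set_option autoImplicit false

namespace Pool.Agent.TH518.CW

open Pool.Agent.TH716.CF

/-- the sheared triangle -/
def Sh (d : ℕ) (s τ : ℝ) : Set (ℤ × ℤ) :=
  {m | 0 ≤ m.2 ∧ -((d : ℝ) * (1 + τ)) + s * m.2 ≤ m.1 ∧
    (m.1 : ℝ) ≤ -((d : ℝ) * (1 + τ)) + 3 * d + (s - 9) * m.2}

/-- the flattened set -/
def FlS (S : Set (ℤ × ℤ)) : Set (ℤ × ℤ) := {m | 0 ≤ m.2 ∧ ∃ b, (m.1, b) ∈ S ∧ (m.1, b + m.2) ∈ S}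

theorem tri_of_fl {p : ℕ} {ι : Type} {r w : ι → ℕ} {d : ℕ} {s τ : ℝ} {c : ℤ}
    (hc : (c : ℝ) = s - 3 * (1 + τ)) (h : EmpG p r w (FlS (Sh d s τ))) : EmpG p r w (Tri d τ) := by
  have e1 : EmpG p r w (Sh d s τ) := by
    refine h.flat0 ?_
    intro a b T k h1 h2 hk hkT
    refine ⟨hk, b, h1, ?_⟩
    obtain ⟨g1, g2, g3⟩ := h1
    obtain ⟨g4, g5, g6⟩ := h2
    simp only at g1 g2 g3 g4 g5 g6
    push_cast at g2 g3 g5 g6
    refine ⟨by simp only; omega, ?_, ?_⟩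
    · simp only
      push_cast
      have hkT' : (k : ℝ) ≤ T := by exact_mod_cast hkT
      have hk0 : (0 : ℝ) ≤ k := by exact_mod_cast hk
      have hb : (0 : ℝ) ≤ b := by exact_mod_cast g1
      by_cases hs : 0 ≤ s
      · have : s * k ≤ s * T := mul_le_mul_of_nonneg_left hkT' hs
        nlinarith
      · have : s * k ≤ 0 := mul_nonpos_of_nonpos_of_nonneg (by linarith) hk0
        nlinarith
    · simp only
      push_cast
      have hkT' : (k : ℝ) ≤ T := by exact_mod_cast hkT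
      have hk0 : (0 : ℝ) ≤ k := by exact_mod_cast hk
      by_cases hs : 9 ≤ s
      · have : 0 ≤ (s - 9) * k := mul_nonneg (by linarith) hk0
        nlinarith
      · have : (s - 9) * T ≤ (s - 9) * k := by nlinarith
        nlinarith
  refine e1.shear c ?_
  rintro ⟨a, b⟩ ⟨h1, h2, h3⟩
  simp only at h1 h2 h3
  refine ⟨h1, ?_, ?_⟩
  · simp only
    push_cast
    rw [hc]
    linarith
  · simp only
    push_cast
    rw [hc]
    linarith

/-- flattening does not increase the number of points -/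
theorem fl_card {S : Set (ℤ × ℤ)} (hS : S.Finite) (h0 : ∀ m ∈ S, 0 ≤ m.2)
    (hconv : ∀ a b T k : ℤ, (a, b) ∈ S → (a, b + T) ∈ S → 0 ≤ k → k ≤ T → (a, b + k) ∈ S) :
    (FlS S).Finite ∧ (FlS S).ncard ≤ S.ncard := by
  have hμ : ∀ a : ℤ, ∃ μ : ℤ, (∃ b, (a, b) ∈ S) → (a, μ) ∈ S ∧ ∀ b, (a, b) ∈ S → μ ≤ b := by
    intro a
    by_cases h : ∃ b, (a, b) ∈ S
    · obtain ⟨μ, h1, h2⟩ := Int.exists_least_of_bdd (P := fun b => (a, b) ∈ S)
        ⟨0, fun b hb => h0 _ hb⟩ h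
      exact ⟨μ, fun _ => ⟨h1, h2⟩⟩
    · exact ⟨0, fun h' => absurd h' h⟩
  choose μ hμ using hμ
  have hmaps : ∀ m ∈ FlS S, ((m.1, μ m.1 + m.2) : ℤ × ℤ) ∈ S := by
    rintro ⟨a, k⟩ ⟨hk, b, h1, h2⟩
    simp only at hk h1 h2 ⊢
    obtain ⟨h3, h4⟩ := hμ a ⟨b, h1⟩
    have h5 := h4 b h1
    refine hconv a (μ a) (b + k - μ a) k h3 ?_ hk (by omega)
    convert h2 using 2
    ring
  have hinj : Set.InjOn (fun m : ℤ × ℤ => ((m.1, μ m.1 + m.2) : ℤ × ℤ)) (FlS S) := by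
    rintro ⟨a, k⟩ _ ⟨a', k'⟩ _ h
    simp only [Prod.mk.injEq] at h
    obtain ⟨rfl, h⟩ := h
    ext
    · rfl
    · simp only; omega
  exact ⟨Set.Finite.of_injOn hmaps hinj hS, Set.ncard_le_ncard_of_injOn _ hmaps hinj hS⟩

/-- the row lengths of the triangle -/
def gg (n : ℕ) : ℕ := if n = 0 then 1 else 3 * n

theorem sum_gg (t e : ℕ) (ht : t < 3) :
    ∑ b ∈ Finset.range (e + 1), gg (3 * e + t - 3 * b) = (3 * e + t + 2).choose 2 := by
  induction e with
  | zero =>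
    rw [Finset.sum_range_one]
    interval_cases t <;> simp [gg] <;> rfl
  | succ e ih =>
    rw [Finset.sum_range_succ', ← Nat.add_zero (3 * (e + 1) + t - 3 * 0)]
    have h1 : ∀ b ∈ Finset.range (e + 1), gg (3 * (e + 1) + t - 3 * (b + 1)) = gg (3 * e + t - 3 * b) := by
      intro b _
      congr 1
      omega
    rw [Finset.sum_congr rfl h1, ih]
    have h2 : gg (3 * (e + 1) + t - 3 * 0 + 0) = 3 * (3 * (e + 1) + t) := by
      unfold gg
      rw [if_neg (by omega)]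
      omega
    rw [h2]
    have h3 : ∀ n : ℕ, (n + 3 + 2).choose 2 = (n + 2).choose 2 + 3 * (n + 3) := by
      intro n
      rw [Nat.choose_succ_succ' (n + 4) 1, Nat.choose_succ_succ' (n + 3) 1,
        Nat.choose_succ_succ' (n + 2) 1, Nat.choose_one_right, Nat.choose_one_right,
        Nat.choose_one_right]
      ring
    have h4 := h3 (3 * e + t)
    have h5 : 3 * (e + 1) + t + 2 = 3 * e + t + 3 + 2 := by ring
    rw [h5, h4]
    ring

theorem icc_le {x : ℝ} (hx : Irrational x) (n : ℕ) :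
    (Finset.Icc ⌈x⌉ ⌊x + 3 * n⌋).card ≤ 3 * n := by
  rw [Int.card_Icc]
  have h1 : ⌊x + 3 * (n : ℝ)⌋ = ⌊x⌋ + 3 * n := by
    have : x + 3 * (n : ℝ) = x + ((3 * n : ℤ) : ℝ) := by push_cast; ring
    rw [this, Int.floor_add_intCast]
  have h2 : ⌊x⌋ < ⌈x⌉ := by
    rcases lt_or_eq_of_le (Int.floor_le_ceil x) with h | h
    · exact h
    · exfalso
      have h3 : (⌊x⌋ : ℝ) ≤ x := Int.floor_le x
      have h4 : x ≤ (⌈x⌉ : ℝ) := Int.le_ceil x
      rw [← h] at h4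
      exact hx ⟨(⌊x⌋ : ℤ), by push_cast; exact le_antisymm h3 h4⟩
  rw [h1]
  omega

theorem sh_card {d : ℕ} {s τ : ℝ} {c : ℤ} (hc : (c : ℝ) = s - 3 * (1 + τ)) (hτ : Irrational τ) :
    (Sh d s τ).Finite ∧ (Sh d s τ).ncard ≤ (d + 2).choose 2 := by
  classical
  let A : ℝ := -((d : ℝ) * (1 + τ))
  let T : Finset (ℤ × ℤ) := (Finset.range (d / 3 + 1)).biUnion fun b =>
    (Finset.Icc ⌈A + s * b⌉ ⌊A + s * b + 3 * ((d - 3 * b : ℕ) : ℝ)⌋) ×ˢ {(b : ℤ)}
  have hsub : Sh d s τ ⊆ (T : Set (ℤ × ℤ)) := by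
    rintro ⟨a, y⟩ ⟨h1, h2, h3⟩
    simp only at h1 h2 h3
    obtain ⟨b, rfl⟩ := Int.eq_ofNat_of_zero_le h1
    have hb : 3 * b ≤ d := by
      have h4 : (3 : ℝ) * b ≤ d := by
        have : ((b : ℤ) : ℝ) = (b : ℝ) := by push_cast; rfl
        rw [this] at h2 h3
        linarith
      exact_mod_cast h4
    rw [Finset.mem_coe, Finset.mem_biUnion]
    refine ⟨b, Finset.mem_range.2 (by omega), ?_⟩
    rw [Finset.mem_product, Finset.mem_Icc, Finset.mem_singleton]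
    have h5 : (((d - 3 * b : ℕ) : ℕ) : ℝ) = d - 3 * b := by
      rw [Nat.cast_sub hb]; push_cast; ring
    refine ⟨⟨Int.ceil_le.2 ?_, Int.le_floor.2 ?_⟩, rfl⟩
    · simp only [A]
      have : ((b : ℤ) : ℝ) = (b : ℝ) := by push_cast; rfl
      rw [this] at h2
      exact h2
    · simp only [A]
      have : ((b : ℤ) : ℝ) = (b : ℝ) := by push_cast; rfl
      rw [this] at h3
      rw [h5]
      linarith
  refine ⟨T.finite_toSet.subset hsub, ?_⟩
  refine (Set.ncard_le_ncard hsub T.finite_toSet).trans ?_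
  rw [Set.ncard_coe_finset]
  refine Finset.card_biUnion_le.trans ?_
  have h6 : ∀ b ∈ Finset.range (d / 3 + 1), ((Finset.Icc ⌈A + s * b⌉
      ⌊A + s * b + 3 * ((d - 3 * b : ℕ) : ℝ)⌋) ×ˢ {(b : ℤ)}).card ≤ gg (d - 3 * b) := by
    intro b hb
    rw [Finset.mem_range] at hb
    have hb' : 3 * b ≤ d := by omega
    rw [Finset.card_product, Finset.card_singleton, mul_one]
    unfold gg
    split_ifs with h7
    · rw [h7, Int.card_Icc]
      have h8 : ⌊A + s * b + 3 * ((0 : ℕ) : ℝ)⌋ ≤ ⌈A + s * b⌉ := by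
        rw [Nat.cast_zero, mul_zero, add_zero]
        exact Int.floor_le_ceil _
      omega
    · apply icc_le
      have h9 : A + s * b = ((-((d - 3 * b : ℕ) : ℤ) : ℤ) : ℝ) * τ +
          ((c * b - ((d - 3 * b : ℕ) : ℤ) : ℤ) : ℝ) := by
        simp only [A]
        push_cast
        rw [Nat.cast_sub hb', hc]
        push_cast
        ring
      rw [h9]
      apply Irrational.add_intCast
      apply Irrational.intCast_mul hτ
      omega
  refine (Finset.sum_le_sum h6).trans (le_of_eq ?_)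
  have h10 := sum_gg (d % 3) (d / 3) (Nat.mod_lt _ (by norm_num))
  have h11 : 3 * (d / 3) + d % 3 = d := Nat.div_add_mod d 3
  rw [h11] at h10
  exact h10

theorem fl_sh_card {d : ℕ} {s τ : ℝ} {c : ℤ} (hc : (c : ℝ) = s - 3 * (1 + τ)) (hτ : Irrational τ) :
    (FlS (Sh d s τ)).Finite ∧ (FlS (Sh d s τ)).ncard ≤ (d + 2).choose 2 := by
  obtain ⟨h1, h2⟩ := sh_card (d := d) hc hτ
  obtain ⟨h3, h4⟩ := fl_card h1 (fun m hm => hm.1) (by
    intro a b T k h1 h2 hk hkT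
    obtain ⟨g1, g2, g3⟩ := h1
    obtain ⟨g4, g5, g6⟩ := h2
    simp only at g1 g2 g3 g4 g5 g6
    push_cast at g2 g3 g5 g6
    refine ⟨by simp only; omega, ?_, ?_⟩
    · simp only
      push_cast
      have hkT' : (k : ℝ) ≤ T := by exact_mod_cast hkT
      have hk0 : (0 : ℝ) ≤ k := by exact_mod_cast hk
      by_cases hs : 0 ≤ s
      · have : s * k ≤ s * T := mul_le_mul_of_nonneg_left hkT' hs
        nlinarith
      · have : s * k ≤ 0 := mul_nonpos_of_nonpos_of_nonneg (by linarith) hk0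
        nlinarith
    · simp only
      push_cast
      have hkT' : (k : ℝ) ≤ T := by exact_mod_cast hkT
      have hk0 : (0 : ℝ) ≤ k := by exact_mod_cast hk
      by_cases hs : 9 ≤ s
      · have : 0 ≤ (s - 9) * k := mul_nonneg (by linarith) hk0
        nlinarith
      · have : (s - 9) * T ≤ (s - 9) * k := by nlinarith
        nlinarith)
  exact ⟨h3, h4.trans h2⟩

end Pool.Agent.TH518.CW
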