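import Pool.Agent.TH716.CF.KeyB

/-! The key lemma for one germ and simple points in general position. -/

set_option autoImplicit false

namespace Pool.Agent.TH518.CW

open Pool.Agent.TH603.EL Pool.Agent.TH716.CF

section generic
variable {L : Type} [Field L] {R : Type} [CommRing R]

open Polynomial in
theorem coll_genV (inc : L →+* R) (U : ZMod 3 → R) {V : R} (hV : V * U 0 = 1)
    (ψ : R →+* PowerSeries L) (hinc : ∀ c, ψ (inc c) = PowerSeries.C c)
    (hx : PowerSeries.coeff 1 (ψ (V * U 1)) ≠ 0) {r m d : ℕ} {I : Ideal R} (hI : J ψ r ^ m ≤ I) :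
    ∃ (c : L) (a : Fin r → L), ∀ P : MvPolynomial (Fin 3) L, P.IsHomogeneous d →
        (MvPolynomial.aeval ![C X, X, 1] : MvPolynomial (Fin 3) L →ₐ[L] L[X][X]) P ∈
          (Ideal.span {X - C (∑ j : Fin r, C (a j) * X ^ (j : ℕ)), C ((X - C c) ^ r)} :
            Ideal L[X][X]) ^ m →
        MvPolynomial.eval₂Hom inc U (MvPolynomial.rename cyc P) ∈ I := by
  obtain ⟨c, q, hq, hle⟩ := graph_ideal inc (V * U 1) (V * U 2) ψ hinc hx r
  refine ⟨c, fun j => q.coeff j, ?_⟩
  intro P hP hIP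
  have hqs : (∑ j : Fin r, C (q.coeff j) * X ^ (j : ℕ) : L[X]) = q := by
    rw [Fin.sum_univ_eq_sum_range (fun j => C (q.coeff j) * X ^ j : ℕ → L[X]) r]
    by_cases hq0 : q = 0
    · rw [hq0]; simp
    · exact (as_sum_range_C_mul_X_pow' _ ((natDegree_lt_iff_degree_lt hq0).2 hq)).symm
  rw [hqs] at hIP
  have h2 := transfer0 ψ (eval₂RingHom (eval₂RingHom inc (V * U 1)) (V * U 2))
    (Ideal.pow_right_mono hle m hIP)
  have hhom : (MvPolynomial.rename cyc P).IsHomogeneous d := hP.rename_isHomogeneous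
  rw [cyc_eq inc U hV, Pool.Agent.TH716.CF.eval_smul hhom] at h2
  have h4 : MvPolynomial.eval₂Hom inc U (MvPolynomial.rename cyc P) =
      U 0 ^ d * (V ^ d * MvPolynomial.eval₂Hom inc U (MvPolynomial.rename cyc P)) := by
    rw [← mul_assoc, ← mul_pow, mul_comm (U 0) V, hV, one_pow, one_mul]
  rw [h4]
  exact I.mul_mem_left _ (hI h2)

end generic

/-- the value of a form at the point of a germ -/
noncomputable def lmf {K : Type} [Field K] (U : ZMod 3 → HR K) (φ : Lau K →+* PowerSeries K)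
    (hφ : ∀ c : K, φ (AddMonoidAlgebra.single 0 c) = PowerSeries.C c) :
    MvPolynomial (Fin 3) (HK K) →ₗ[HK K] HK K where
  toFun P := PowerSeries.coeff 0 (hat φ (MvPolynomial.eval₂Hom incl U (MvPolynomial.rename cyc P)))
  map_add' P Q := by rw [map_add, map_add, map_add, map_add]
  map_smul' c P := by
    rw [map_smul, MvPolynomial.smul_eq_C_mul, map_mul, MvPolynomial.coe_eval₂Hom,
      MvPolynomial.eval₂_C, map_mul, hat_incl hφ, PowerSeries.coeff_C_mul]
    rfl

open Polynomial in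
theorem key_coll_v {p : ℕ} {r m d v : ℕ} {τ : ℝ} (h0 : 0 < τ) (h1 : τ < 1)
    (h : EmpG p (fun o : Option (Fin v) => o.elim r fun _ => 1) (fun o => o.elim m fun _ => 1)
      (Tri d τ)) :
    ∃ (L : Type) (_ : Field L) (_ : CharP L p) (c : L) (a : Fin r → L)
      (lm : MvPolynomial (Fin 3) L →ₗ[L] (Fin v → L)),
      ∀ P : MvPolynomial (Fin 3) L, P.IsHomogeneous d →
        (MvPolynomial.aeval ![C X, X, 1] : MvPolynomial (Fin 3) L →ₐ[L] L[X][X]) P ∈
          (Ideal.span {X - C (∑ j : Fin r, C (a j) * X ^ (j : ℕ)), C ((X - C c) ^ r)} :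
            Ideal L[X][X]) ^ m →
        lm P = 0 → P = 0 := by
  obtain ⟨K, _, _, φ', hφ', hE⟩ := key_general h0 h1 h
  have hφ : IsGerm (φ' none) := hφ' none
  obtain ⟨V, hV⟩ : ∃ V : HR K, V * tube K τ (3 * d + 4) 0 = 1 := by
    rw [tube_zero]
    obtain ⟨u, hu⟩ := theta0_isUnit (K := K) h0 h1
    exact ⟨↑u⁻¹, by rw [← hu]; exact Units.inv_mul u⟩
  have hx : PowerSeries.coeff 1 (hat (φ' none) (V * tube K τ (3 * d + 4) 1)) ≠ 0 := by
    rw [tube_one]
    exact x_der_ne h0 h1 hφ (by rw [← tube_zero K τ (3 * d + 4)]; exact hV)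
  have hle : J (hat (φ' none)) r ^ m ≤ CI (J (φ' none) r ^ m) := by
    rw [J_hat]
    exact CI_pow_le _ _
  obtain ⟨c, a, hca⟩ := coll_genV (d := d) incl (tube K τ (3 * d + 4)) hV (hat (φ' none))
    (hat_incl hφ.const) hx hle
  refine ⟨HK K, inferInstance, inferInstance, c, a,
    LinearMap.pi fun j => lmf (tube K τ (3 * d + 4)) (φ' (some j)) (hφ' (some j)).const, ?_⟩
  intro P hP hP' hlm
  by_contra hne
  refine hE (MvPolynomial.rename cyc P) hP.rename_isHomogeneous ?_ ?_
  · intro h3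
    exact hne (MvPolynomial.rename_injective _ cyc.injective (by rw [h3, map_zero]))
  · rintro (_ | j) b
    · exact hca P hP hP' b
    · have h3 : PowerSeries.coeff 0 (hat (φ' (some j))
          (MvPolynomial.eval₂Hom incl (tube K τ (3 * d + 4)) (MvPolynomial.rename cyc P))) = 0 :=
        congrFun hlm j
      simp only [Option.elim_some, pow_one]
      rw [mem_J]
      intro n hn
      have hn0 : n = 0 := by omega
      subst hn0
      have h4 := congrArg (fun u : HK K => u.coeff b) h3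
      simp only [HahnSeries.coeff_zero] at h4
      rw [coeff_hat] at h4
      exact h4

end Pool.Agent.TH518.CW
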