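import Pool.Agent.TH98.CF.Final
import Pool.Agent.TH716.CF.Flat

/-! Simple points in general position: the kernel of the conditions of a germ. -/

set_option autoImplicit false

namespace Pool.Agent.TH518.CW

open Pool.Agent.TH603.EL Pool.Agent.TH716.CF Pool.Agent.TH98.CF

section
variable {K : Type} [Field K]

/-- the germ `x = x0 + X`, `y = y0` -/
noncomputable def gy (x y : K) (hx : x ≠ 0) (hy : y ≠ 0) : Lau K →+* PowerSeries K :=
  AddMonoidAlgebra.liftNCRingHom PowerSeries.C
    { toFun := fun m => (((xU x hx) ^ m.toAdd.1 : (PowerSeries K)ˣ) : PowerSeries K) *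
        PowerSeries.C (((Units.mk0 y hy) ^ m.toAdd.2 : Kˣ) : K)
      map_one' := by simp
      map_mul' := by
        intro m m'
        simp only [toAdd_mul, Prod.fst_add, Prod.snd_add]
        rw [zpow_add, zpow_add, Units.val_mul, Units.val_mul, map_mul]
        ring }
    (fun _ _ => Commute.all _ _)

theorem gy_single (x y : K) (hx : x ≠ 0) (hy : y ≠ 0) (m : ℤ × ℤ) (c : K) :
    gy x y hx hy (AddMonoidAlgebra.single m c) =
      PowerSeries.C c * ((((xU x hx) ^ m.1 : (PowerSeries K)ˣ) : PowerSeries K) *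
        PowerSeries.C (((Units.mk0 y hy) ^ m.2 : Kˣ) : K)) := by
  unfold gy
  rw [AddMonoidAlgebra.liftNCRingHom_single]
  rfl

theorem gy_isGerm (x y : K) (hx : x ≠ 0) (hy : y ≠ 0) : IsGerm (gy x y hx hy) where
  const c := by
    rw [gy_single]
    simp
  der := by
    rw [gy_single]
    simp [xU_val]

theorem const_zpow (u : (PowerSeries K)ˣ) (n : ℤ) :
    PowerSeries.constantCoeff ((u ^ n : (PowerSeries K)ˣ) : PowerSeries K) =
      (PowerSeries.constantCoeff (u : PowerSeries K)) ^ n := by
  have h1 := map_zpow (Units.map (PowerSeries.constantCoeff (R := K)).toMonoidHom) u n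
  have h2 := congrArg (Units.val) h1
  rw [Units.val_zpow_eq_zpow_val] at h2
  exact h2

theorem gy_coeff0 (x y : K) (hx : x ≠ 0) (hy : y ≠ 0) (f : Lau K) :
    PowerSeries.coeff 0 (gy x y hx hy f) =
      ∑ m ∈ f.coeff.support, f.coeff m * (x ^ m.1 * y ^ m.2) := by
  conv_lhs => rw [← sum_single_coeff f]
  rw [map_sum, map_sum]
  refine Finset.sum_congr rfl fun m _ => ?_
  rw [gy_single, PowerSeries.coeff_zero_eq_constantCoeff_apply, map_mul, map_mul, const_zpow, xU_val]
  simp [Units.val_zpow_eq_zpow_val]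

theorem exists_ne_one [Infinite K] {n : ℤ} (hn : n ≠ 0) : ∃ x : Kˣ, x ^ n ≠ 1 := by
  by_contra hcon
  push Not at hcon
  have h1 : ∀ x : Kˣ, x ^ n.natAbs = 1 := by
    intro x
    have h2 := hcon x
    rcases Int.natAbs_eq n with h3 | h3
    · rw [h3, zpow_natCast] at h2
      exact h2
    · rw [h3, zpow_neg, zpow_natCast, inv_eq_one] at h2
      exact h2
  have h3 : (Polynomial.X ^ n.natAbs - Polynomial.C 1 : Polynomial K) = 0 := by
    apply Polynomial.eq_zero_of_infinite_isRoot
    refine ((Set.finite_singleton (0 : K)).infinite_compl).mono ?_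
    intro x hx'
    have hx : x ≠ 0 := hx'
    have h4 := congrArg Units.val (h1 (Units.mk0 x hx))
    rw [Units.val_pow_eq_pow_val, Units.val_mk0, Units.val_one] at h4
    show Polynomial.eval x _ = 0
    rw [Polynomial.eval_sub, Polynomial.eval_pow, Polynomial.eval_X, Polynomial.eval_C, h4, sub_self]
  exact Polynomial.X_pow_sub_C_ne_zero (by omega) 1 h3

/-- the character of an exponent -/
noncomputable def chi (K : Type) [Field K] (m : ℤ × ℤ) : (Kˣ × Kˣ) →* K where
  toFun q := ((q.1 ^ m.1 * q.2 ^ m.2 : Kˣ) : K)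
  map_one' := by simp
  map_mul' q q' := by
    simp only [Prod.fst_mul, Prod.snd_mul, mul_zpow, Units.val_mul]
    ring

theorem chi_injective [Infinite K] : Function.Injective (chi K) := by
  have key : ∀ a b : ℤ, (∀ x : Kˣ, x ^ a = x ^ b) → a = b := by
    intro a b h
    by_contra hne
    obtain ⟨x, hx⟩ := exists_ne_one (K := K) (sub_ne_zero.2 hne)
    apply hx
    rw [zpow_sub, h x, mul_inv_cancel]
  intro m m' h
  ext
  · apply key
    intro x
    have h1 := congrArg (fun g => g ((x, 1) : Kˣ × Kˣ)) h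
    simp only [chi, MonoidHom.coe_mk, OneHom.coe_mk, one_zpow, mul_one] at h1
    exact Units.ext h1
  · apply key
    intro x
    have h1 := congrArg (fun g => g ((1, x) : Kˣ × Kˣ)) h
    simp only [chi, MonoidHom.coe_mk, OneHom.coe_mk, one_zpow, one_mul] at h1
    exact Units.ext h1

theorem exists_point [Infinite K] {f : Lau K} (hf : f ≠ 0) :
    ∃ (x y : K) (hx : x ≠ 0) (hy : y ≠ 0), PowerSeries.coeff 0 (gy x y hx hy f) ≠ 0 := by
  by_contra hcon
  push Not at hcon
  apply hf
  have li := (linearIndependent_monoidHom (Kˣ × Kˣ) K).comp (chi K) chi_injective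
  rw [linearIndependent_iff'] at li
  have h1 := li f.coeff.support f.coeff (by
    funext q
    rw [Finset.sum_apply, Pi.zero_apply]
    have h2 := hcon q.1 q.2 q.1.ne_zero q.2.ne_zero
    rw [gy_coeff0] at h2
    rw [← h2]
    refine Finset.sum_congr rfl fun m _ => ?_
    simp [chi, Units.val_zpow_eq_zpow_val])
  apply eq_zero_of_coeff
  intro m
  by_contra hm
  exact hm (h1 m (Finsupp.mem_support_iff.2 hm))

theorem smul_eq (c : K) (f : Lau K) : c • f = AddMonoidAlgebra.single 0 c * f := by
  rw [Algebra.smul_def]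
  rfl

/-- the value at the point of a germ -/
noncomputable def lam (φ : Lau K →+* PowerSeries K)
    (hφ : ∀ c, φ (AddMonoidAlgebra.single 0 c) = PowerSeries.C c) : Lau K →ₗ[K] K where
  toFun f := PowerSeries.coeff 0 (φ f)
  map_add' f g := by rw [map_add, map_add]
  map_smul' c f := by
    rw [smul_eq, map_mul, hφ, PowerSeries.coeff_C_mul]
    rfl

theorem exists_points [Infinite K] (v : ℕ) : ∀ (U : Submodule K (Lau K)), FiniteDimensional K U →
    Module.finrank K U ≤ v → ∃ (φ : Fin v → (Lau K →+* PowerSeries K)), (∀ i, IsGerm (φ i)) ∧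
      ∀ f ∈ U, (∀ i, PowerSeries.coeff 0 (φ i f) = 0) → f = 0 := by
  induction v with
  | zero =>
    intro U hU h
    refine ⟨fun i => i.elim0, fun i => i.elim0, fun f hf _ => ?_⟩
    have h1 : U = ⊥ := Submodule.finrank_eq_zero.1 (Nat.le_zero.1 h)
    rw [h1, Submodule.mem_bot] at hf
    exact hf
  | succ v ih =>
    intro U hU h
    by_cases hb : U = ⊥
    · refine ⟨fun _ => gy 1 1 one_ne_zero one_ne_zero, fun _ => gy_isGerm _ _ _ _, fun f hf _ => ?_⟩
      rw [hb, Submodule.mem_bot] at hf
      exact hf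
    · obtain ⟨f0, hf0, hne⟩ := Submodule.exists_mem_ne_zero_of_ne_bot hb
      obtain ⟨x, y, hx, hy, hxy⟩ := exists_point hne
      have hg := gy_isGerm x y hx hy
      have hlt : U ⊓ LinearMap.ker (lam (gy x y hx hy) hg.const) < U := by
        refine lt_of_le_of_ne inf_le_left ?_
        intro h1
        rw [← h1] at hf0
        exact hxy hf0.2
      have hfd : FiniteDimensional K ↥(U ⊓ LinearMap.ker (lam (gy x y hx hy) hg.const)) :=
        Submodule.finiteDimensional_of_le inf_le_left
      obtain ⟨φ, hφ, hφ'⟩ := ih _ hfd (by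
        have := Submodule.finrank_lt_finrank_of_lt hlt
        omega)
      refine ⟨Fin.cons (gy x y hx hy) φ, ?_, ?_⟩
      · intro i
        refine Fin.cases ?_ ?_ i
        · exact hg
        · intro i
          exact hφ i
      · intro f hf h2
        refine hφ' f ⟨hf, h2 0⟩ fun i => h2 i.succ

end

theorem EmpG_add {p : ℕ} (hp : p = 0 ∨ p.Prime) {r m v : ℕ} {S : Set (ℤ × ℤ)} (hS : S.Finite)
    {W : Finset (ℤ × ℤ)} (hWS : ∀ q ∈ W, q ∈ S) (hc : S.ncard ≤ W.card + v)
    (hW0 : ∀ q ∈ W, 0 ≤ q.2)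
    (hrow : ∀ (k : ℕ), ∀ q ∈ W, ∀ q' ∈ W, (k : ℤ) ≤ q.2 → (k : ℤ) ≤ q'.2 →
      q'.1 - q.1 < ((r * (m - k) : ℕ) : ℤ)) :
    EmpG p (fun o : Option (Fin v) => o.elim r fun _ => 1) (fun o => o.elim m fun _ => 1) S := by
  classical
  obtain ⟨K, _, _, hK⟩ := exists_infinite hp
  have hg0 : IsGerm (gm (1 : K) one_ne_zero) := ⟨gm_const _ _, by rw [gm_x]; simp⟩
  have hW : ∀ f : Lau K, (∀ q, f.coeff q ≠ 0 → q ∈ W) → f ∈ J (gm (1 : K) one_ne_zero) r ^ m →
      f = 0 := by
    intro f h1 h2
    refine final_rows (K := K) (ι := Unit) (x := fun _ => 1) (fun a b _ => rfl) (fun _ => one_ne_zero)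
      (φ := fun _ => gm (1 : K) one_ne_zero) (fun i => gm_const _ _) (fun i => gm_x _ _)
      (fun i => gm_y _ _) (r := fun _ => r) (w := fun _ => m) (S := (W : Set (ℤ × ℤ))) hW0 ?_ ?_
      (fun _ => h2)
    · intro k q hq q' hq' hk hk'
      rw [Fintype.sum_unique]
      exact hrow k q hq q' hq' hk hk'
    · intro q hq
      exact h1 q (Finsupp.mem_support_iff.1 hq)
  let U : Submodule K (Lau K) :=
    { carrier := {f | (∀ q, f.coeff q ≠ 0 → q ∈ S) ∧ f ∈ J (gm (1 : K) one_ne_zero) r ^ m}
      add_mem' := by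
        rintro f g ⟨h1, h2⟩ ⟨h3, h4⟩
        refine ⟨fun q hq => ?_, Ideal.add_mem _ h2 h4⟩
        by_contra hqS
        apply hq
        rw [AddMonoidAlgebra.coeff_add, Finsupp.add_apply]
        have e1 : f.coeff q = 0 := by by_contra h; exact hqS (h1 q h)
        have e2 : g.coeff q = 0 := by by_contra h; exact hqS (h3 q h)
        rw [e1, e2, add_zero]
      zero_mem' := ⟨fun q hq => absurd rfl hq, Ideal.zero_mem _⟩
      smul_mem' := by
        rintro c f ⟨h1, h2⟩
        refine ⟨fun q hq => ?_, ?_⟩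
        · apply h1
          intro h3
          apply hq
          rw [AddMonoidAlgebra.coeff_smul, Finsupp.smul_apply, h3, smul_zero]
        · rw [smul_eq]
          exact Ideal.mul_mem_left _ _ h2 }
  let D : Finset (ℤ × ℤ) := hS.toFinset \ W
  let R : U →ₗ[K] (D → K) :=
    { toFun := fun f q => (f : Lau K).coeff q
      map_add' := fun f g => by
        funext q
        show ((f : Lau K) + g).coeff q = _
        rw [AddMonoidAlgebra.coeff_add, Finsupp.add_apply]
        rfl
      map_smul' := fun c f => by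
        funext q
        show (c • (f : Lau K)).coeff q = _
        rw [AddMonoidAlgebra.coeff_smul, Finsupp.smul_apply]
        rfl }
  have hRinj : Function.Injective R := by
    rw [← LinearMap.ker_eq_bot, LinearMap.ker_eq_bot']
    rintro ⟨f, hf1, hf2⟩ h
    apply Subtype.ext
    show f = 0
    refine hW f (fun q hq => ?_) hf2
    by_contra hqW
    apply hq
    exact congrFun h ⟨q, Finset.mem_sdiff.2 ⟨hS.mem_toFinset.2 (hf1 q hq), hqW⟩⟩
  have hUfd : FiniteDimensional K U := FiniteDimensional.of_injective R hRinj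
  have hUr : Module.finrank K U ≤ v := by
    have h1 := LinearMap.finrank_le_finrank_of_injective hRinj
    rw [Module.finrank_fintype_fun_eq_card, Fintype.card_coe] at h1
    have h2 : W ⊆ hS.toFinset := fun q hq => hS.mem_toFinset.2 (hWS q hq)
    have h3 : D.card = hS.toFinset.card - W.card := Finset.card_sdiff_of_subset h2
    have h4 : hS.toFinset.card = S.ncard := (Set.ncard_eq_toFinset_card S hS).symm
    omega
  obtain ⟨φ, hφ, hφ'⟩ := exists_points v U hUfd hUr
  refine ⟨K, inferInstance, inferInstance, fun o => o.elim (gm (1 : K) one_ne_zero) φ, ?_, ?_⟩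
  · rintro (_ | i)
    · exact hg0
    · exact hφ i
  · intro f h1 h2
    refine hφ' f ⟨h1, h2 none⟩ fun i => ?_
    have h3 := h2 (some i)
    simp only [Option.elim_some, pow_one] at h3
    exact mem_J.1 h3 0 (by norm_num)

end Pool.Agent.TH518.CW
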