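import Pool.Agent.TH545.CF.EndB
import Pool.Agent.H932R3.Collide

/-! Independence of the conditions passes from one collision to general collisions. -/

set_option autoImplicit false

namespace Pool.Agent.TH518.CW

open Polynomial Pool.Agent.H932R2 Pool.Agent.H932R3 Pool.Agent.TH545.CF

universe u v

/-- independence passes from one collision to general collisions over every field of the same
characteristic -/
theorem open_rank {K : Type v} [Field K] {L : Type u} [Field L] (p : ℕ) [CharP K p]
    [CharP L p] {r m d : ℕ} {c0 : K} {a0 : Fin r → K}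
    (hrow : ∀ u : EE r m → K, (∀ s : Fin (Tfin d).card, ∑ q : EE r m,
      MvPolynomial.aeval (Fin.cons c0 a0 : Fin (r + 1) → K) (entC r q.1 (enumM (Tfin d) s)) *
        u q = 0) → u = 0) :
    ∃ F : MvPolynomial (Fin (r + 1)) L, F ≠ 0 ∧
      ∀ (c : L) (a : Fin r → L), MvPolynomial.eval (Fin.cons c a : Fin (r + 1) → L) F ≠ 0 →
        RkI (jetIdeal m c a) (Tset d) (EE r m).card := by
  classical
  obtain ⟨b, hb⟩ := Pool.Agent.TH15.Nag.exists_rows
    (fun (s : Fin (Tfin d).card) (q : EE r m) =>
      MvPolynomial.aeval (Fin.cons c0 a0 : Fin (r + 1) → K) (entC r q.1 (enumM (Tfin d) s))) hrow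
  let D : MvPolynomial (Fin (r + 1)) ℤ :=
    (Matrix.of fun (j q : EE r m) => entC r q.1 (enumM (Tfin d) (b j))).det
  have hDK : MvPolynomial.aeval (Fin.cons c0 a0 : Fin (r + 1) → K) D ≠ 0 := by
    intro h0
    apply hb
    rw [← h0]
    show _ = (MvPolynomial.aeval (Fin.cons c0 a0 : Fin (r + 1) → K)) (Matrix.det _)
    rw [AlgHom.map_det]
    rfl
  refine ⟨MvPolynomial.map (Int.castRingHom L) D, ?_, fun c a hc => ?_⟩
  · intro h1
    apply hDK
    have h2 : ∀ α, ((MvPolynomial.coeff α D : ℤ) : K) = 0 := by
      intro α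
      have h3 := congrArg (MvPolynomial.coeff α) h1
      rw [MvPolynomial.coeff_map, MvPolynomial.coeff_zero, eq_intCast,
        CharP.intCast_eq_zero_iff L p] at h3
      rw [CharP.intCast_eq_zero_iff K p]
      exact h3
    have h3 : MvPolynomial.map (Int.castRingHom K) D = 0 := by
      ext α
      rw [MvPolynomial.coeff_map, MvPolynomial.coeff_zero]
      exact h2 α
    have h4 : MvPolynomial.aeval (Fin.cons c0 a0 : Fin (r + 1) → K) D =
        MvPolynomial.eval (Fin.cons c0 a0 : Fin (r + 1) → K)
          (MvPolynomial.map (Int.castRingHom K) D) := by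
      rw [MvPolynomial.eval_map, MvPolynomial.aeval_def]
      congr 1
    rw [h4, h3, map_zero]
  · have hdet : (Matrix.of fun (j q : EE r m) =>
        MvPolynomial.aeval (Fin.cons c a : Fin (r + 1) → L)
          (entC r q.1 (enumM (Tfin d) (b j)))).det ≠ 0 := by
      intro h0
      apply hc
      have h4 : MvPolynomial.eval (Fin.cons c a : Fin (r + 1) → L)
          (MvPolynomial.map (Int.castRingHom L) D) =
          MvPolynomial.aeval (Fin.cons c a : Fin (r + 1) → L) D := by
        rw [MvPolynomial.eval_map, MvPolynomial.aeval_def]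
        congr 1
      rw [h4, ← h0]
      show (MvPolynomial.aeval (Fin.cons c a : Fin (r + 1) → L)) (Matrix.det _) = _
      rw [AlgHom.map_det]
      rfl
    let e : Fin (EE r m).card ≃ EE r m := (EE r m).equivFin.symm
    refine ⟨fun i => mon L (enumM (Tfin d) (b (e i))), fun i => ?_, fun w hw => ?_⟩
    · refine Submodule.subset_span ⟨_, ?_, rfl⟩
      rw [← coe_Tfin]
      exact enumM_mem (Tfin d) _
    · rw [mem_jetIdeal (fun i => enumM (Tfin d) (b (e i))) w] at hw
      have h5 : (fun j => w (e.symm j)) = 0 := by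
        apply Matrix.eq_zero_of_vecMul_eq_zero hdet
        funext q
        rw [Matrix.vecMul, dotProduct, Pi.zero_apply, ← hw q]
        rw [← e.sum_comp]
        refine Finset.sum_congr rfl fun i _ => ?_
        rw [Equiv.symm_apply_apply, Matrix.of_apply, mul_comm]
      intro i
      have h6 := congrFun h5 (e i)
      simpa using h6

/-- few forms in the ideal: the conditions are independent -/
theorem rows_of_forms {K : Type v} [Field K] {r m d n : ℕ} {c0 : K} {a0 : Fin r → K}
    (hn : (Tfin d).card = (EE r m).card + n)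
    (lm : MvPolynomial (Fin 3) K →ₗ[K] (Fin n → K))
    (h : ∀ P : MvPolynomial (Fin 3) K, P.IsHomogeneous d → deh K P ∈ jetIdeal m c0 a0 →
      lm P = 0 → P = 0) :
    ∀ u : EE r m → K, (∀ s : Fin (Tfin d).card, ∑ q : EE r m,
      MvPolynomial.aeval (Fin.cons c0 a0 : Fin (r + 1) → K) (entC r q.1 (enumM (Tfin d) s)) *
        u q = 0) → u = 0 := by
  classical
  intro u hu
  let T : (Fin (Tfin d).card → K) →ₗ[K] (EE r m → K) :=
    Matrix.mulVecLin (Matrix.of fun (q : EE r m) (s : Fin (Tfin d).card) =>
      MvPolynomial.aeval (Fin.cons c0 a0 : Fin (r + 1) → K) (entC r q.1 (enumM (Tfin d) s)))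
  have hT : ∀ w q, T w q = ∑ s, MvPolynomial.aeval (Fin.cons c0 a0 : Fin (r + 1) → K)
      (entC r q.1 (enumM (Tfin d) s)) * w s := fun w q => rfl
  have hker : Module.finrank K (LinearMap.ker T) ≤ n := by
    obtain ⟨U, hU⟩ : ∃ U : Submodule K (MvPolynomial (Fin 3) K), U =
      MvPolynomial.homogeneousSubmodule (Fin 3) K d ⊓
        (Submodule.restrictScalars K (jetIdeal m c0 a0)).comap (deh K).toLinearMap := ⟨_, rfl⟩
    have h1 : Module.finrank K U ≤ n := by
      have hinj : Function.Injective (lm.domRestrict U) := by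
        rw [← LinearMap.ker_eq_bot, LinearMap.ker_eq_bot']
        rintro ⟨P, hP⟩ h2
        apply Subtype.ext
        rw [hU] at hP
        exact h P hP.1 hP.2 h2
      have h2 := LinearMap.finrank_le_finrank_of_injective hinj
      rwa [Module.finrank_fin_fun] at h2
    have h2 : Module.finrank K U = Module.finrank K
        ↥(mspan K (Tset d) ⊓ Submodule.restrictScalars K (jetIdeal m c0 a0)) := by
      rw [hU]
      exact finrank_forms _ _ fun F _ => Iff.rfl
    rw [h2] at h1
    refine le_trans ?_ h1
    let Φ : LinearMap.ker T →ₗ[K]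
        ↥(mspan K (Tset d) ⊓ Submodule.restrictScalars K (jetIdeal m c0 a0)) :=
      LinearMap.codRestrict _ ((coordMap K (Tfin d)).comp (LinearMap.ker T).subtype) (by
        rintro ⟨w, hw⟩
        refine ⟨?_, ?_⟩
        · rw [← coe_Tfin]
          exact (mem_mspan_iff (Tfin d) _).2 ⟨w, rfl⟩
        · show coordMap K (Tfin d) w ∈ jetIdeal m c0 a0
          rw [coordMap_apply, mem_jetIdeal]
          intro q
          exact congrFun (LinearMap.mem_ker.1 hw) q)
    have hΦ : Function.Injective Φ := by
      rintro ⟨w, hw⟩ ⟨w', hw'⟩ h3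
      apply Subtype.ext
      exact coordMap_inj (Tfin d) (congrArg Subtype.val h3)
    haveI : FiniteDimensional K (mspan K (Tset d)) := by
      rw [← coe_Tfin]
      exact FiniteDimensional.span_of_finite K ((Tfin d).finite_toSet.image _)
    exact LinearMap.finrank_le_finrank_of_injective hΦ
  have hrange : LinearMap.range T = ⊤ := by
    apply Submodule.eq_top_of_finrank_eq
    have h1 := LinearMap.finrank_range_add_finrank_ker T
    rw [Module.finrank_fin_fun] at h1
    have h2 := Submodule.finrank_le (LinearMap.range T)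
    rw [Module.finrank_fintype_fun_eq_card, Fintype.card_coe] at h2
    rw [Module.finrank_fintype_fun_eq_card, Fintype.card_coe]
    omega
  have hz : ∀ w, ∑ q, T w q * u q = 0 := by
    intro w
    simp only [hT, Finset.sum_mul]
    rw [Finset.sum_comm]
    refine Finset.sum_eq_zero fun s _ => ?_
    have h1 := congrArg (fun x => w s * x) (hu s)
    simp only [Finset.mul_sum, mul_zero] at h1
    rw [← h1]
    refine Finset.sum_congr rfl fun q _ => ?_
    ring
  funext q
  have h1 : (Pi.single q 1 : EE r m → K) ∈ LinearMap.range T := by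
    rw [hrange]; exact Submodule.mem_top
  obtain ⟨w, hw⟩ := h1
  have h2 := hz w
  rw [hw] at h2
  simpa [Pi.single_apply] using h2

end Pool.Agent.TH518.CW
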