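import Pool.Agent.TH518.CW.Geom
import Pool.Agent.TH518.CW.Ker
import Pool.Agent.TH518.CW.Coll
import Pool.Agent.TH518.CW.Open
import Pool.Agent.TH716.CF.Bd

/-! General collisions in every characteristic: independence in high degrees, vanishing in low
degrees. -/

set_option autoImplicit false

namespace Pool.Agent.TH518.CW

open Pool.Agent.TH716.CF Pool.Agent.H932R2 Pool.Agent.H932R3 Pool.Agent.TH545.CF

universe u

theorem card_Tfin_choose (d : ℕ) : (Tfin d).card = (d + 2).choose 2 := by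
  have h4 := card_Tfin d
  have h5 : (d + 2).choose 2 * 2 = (d + 2) * (d + 1) := by
    rw [Nat.choose_two_right, Nat.div_mul_cancel (Nat.even_mul_pred_self _).two_dvd]
    rfl
  linarith

/-- one degree: independence -/
theorem ind_of_rows {p : ℕ} (hp : p = 0 ∨ p.Prime) {k : Type u} [Field k] [CharP k p]
    {r m d : ℕ} {s τ : ℝ} {c : ℤ} (h0 : 0 < τ) (h1 : τ < 1) (hτ : Irrational τ)
    (hc : (c : ℝ) = s - 3 * (1 + τ)) (hs : 9 < s) (hsr : s ≤ r) (hR : Rows r m d s τ) :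
    ∃ F : MvPolynomial (Fin (r + 1)) k, F ≠ 0 ∧
      ∀ (c : k) (a : Fin r → k), MvPolynomial.eval (Fin.cons c a : Fin (r + 1) → k) F ≠ 0 →
        ∀ d' ≥ d, JetDim r m c a d' := by
  classical
  obtain ⟨W, hW, hWS, hW0, hrow⟩ := exists_W hs hsr hR
  obtain ⟨hfin, hcard⟩ := fl_sh_card (d := d) hc hτ
  have hWle : W.card ≤ (FlS (Sh d s τ)).ncard := by
    rw [← Set.ncard_coe_finset W]
    exact Set.ncard_le_ncard (fun q hq => hWS q hq) hfin
  have hE := EmpG_add (v := (d + 2).choose 2 - r * (m + 1).choose 2) hp hfin hWS (by omega) hW0 hrow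
  obtain ⟨L, _, _, c0, a0, lm, hlm⟩ := key_coll_v h0 h1 (tri_of_fl hc hE)
  have h2 := rows_of_forms (K := L) (r := r) (m := m) (d := d)
    (n := (d + 2).choose 2 - r * (m + 1).choose 2) (c0 := c0) (a0 := a0) (by
      rw [card_Tfin_choose, card_EE_eq']
      omega) lm (fun P hP hP' h3 => hlm P hP hP' h3)
  obtain ⟨F, hF, hF'⟩ := open_rank (L := k) p h2
  refine ⟨F, hF, fun c a hc d' hd' => ?_⟩
  have h3 := hF' c a hc
  rw [card_EE_eq'] at h3
  exact jet_indep h3 d' hd'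

theorem ind_all {p : ℕ} (hp : p = 0 ∨ p.Prime) {k : Type u} [Field k] [CharP k p]
    {r m : ℕ} (hr : 10 ≤ r) :
    ∃ F : MvPolynomial (Fin (r + 1)) k, F ≠ 0 ∧
      ∀ (c : k) (a : Fin r → k), MvPolynomial.eval (Fin.cons c a : Fin (r + 1) → k) F ≠ 0 →
        ∀ d : ℕ, √(r : ℝ) * (m + 1) ≤ d + 3 → JetDim r m c a d := by
  classical
  have hex : ∃ d : ℕ, √(r : ℝ) * (m + 1) ≤ d + 3 := by
    obtain ⟨d, hd⟩ := exists_nat_ge (√(r : ℝ) * (m + 1))
    exact ⟨d, by linarith⟩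
  obtain ⟨d1, hd1⟩ : ∃ d1, d1 = Nat.find hex := ⟨_, rfl⟩
  have hs := Nat.find_spec hex
  rw [← hd1] at hs
  have key : ∃ (s τ : ℝ) (c : ℤ), 0 < τ ∧ τ < 1 ∧ Irrational τ ∧ (c : ℝ) = s - 3 * (1 + τ) ∧
      9 < s ∧ s ≤ r ∧ Rows r m d1 s τ := by
    rcases lt_or_eq_of_le hs with h | h
    · exact rows_strict hr h
    · have hrR : (0 : ℝ) ≤ r := Nat.cast_nonneg r
      have h1 : ((d1 : ℝ) + 3) ^ 2 = r * ((m : ℝ) + 1) ^ 2 := by
        rw [← h, mul_pow, Real.sq_sqrt hrR]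
      have h2 : (d1 + 3) ^ 2 = r * (m + 1) ^ 2 := by exact_mod_cast h1
      obtain ⟨n, hn⟩ := (Nat.pow_dvd_pow_iff (by norm_num : (2 : ℕ) ≠ 0)).1
        (⟨r, by rw [h2, mul_comm]⟩ : (m + 1) ^ 2 ∣ (d1 + 3) ^ 2)
      have h3 : r = n ^ 2 := by
        have h4 : (m + 1) ^ 2 * r = (m + 1) ^ 2 * n ^ 2 := by
          rw [mul_comm, ← h2, hn]; ring
        exact Nat.eq_of_mul_eq_mul_left (by positivity) h4
      subst h3
      refine rows_square ?_ (by rw [hn]; ring)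
      by_contra hcon
      have : n ≤ 3 := by omega
      have : n ^ 2 ≤ 3 ^ 2 := Nat.pow_le_pow_left this 2
      omega
  obtain ⟨s, τ, c, g1, g2, g3, g4, g5, g6, g7⟩ := key
  obtain ⟨F, hF, hF'⟩ := ind_of_rows (k := k) hp g1 g2 g3 g4 g5 g6 g7
  refine ⟨F, hF, fun c a hc d hd => hF' c a hc d ?_⟩
  rw [hd1]
  exact Nat.find_min' hex hd

/-- either the inequality is strict or the number of points is a square -/
theorem cases_eq {r m d : ℕ} (hm : 0 < m) (hr : 9 < r) (hd : (d : ℝ) ≤ m * Real.sqrt r) :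
    Real.sqrt r * d < r * m ∨ ∃ k : ℕ, 4 ≤ k ∧ r = k ^ 2 ∧ d = m * k := by
  have hrR : (0 : ℝ) < r := by exact_mod_cast (by omega : 0 < r)
  have hs : 0 < Real.sqrt r := Real.sqrt_pos.2 hrR
  have hss : Real.sqrt r * Real.sqrt r = r := Real.mul_self_sqrt hrR.le
  rcases lt_or_eq_of_le hd with h | h
  · left
    calc Real.sqrt r * d < Real.sqrt r * (m * Real.sqrt r) := mul_lt_mul_of_pos_left h hs
      _ = (Real.sqrt r * Real.sqrt r) * m := by ring
      _ = r * m := by rw [hss]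
  · right
    have h1 : (d : ℝ) ^ 2 = (m : ℝ) ^ 2 * r := by rw [h, mul_pow, Real.sq_sqrt hrR.le]
    have h2 : d ^ 2 = m ^ 2 * r := by exact_mod_cast h1
    obtain ⟨k, hk⟩ := (Nat.pow_dvd_pow_iff (by norm_num : (2 : ℕ) ≠ 0)).1
      (⟨r, h2⟩ : m ^ 2 ∣ d ^ 2)
    have h3 : r = k ^ 2 := by
      have h4 : m ^ 2 * r = m ^ 2 * k ^ 2 := by rw [← h2, hk]; ring
      exact Nat.eq_of_mul_eq_mul_left (by positivity) h4
    refine ⟨k, ?_, h3, hk⟩
    by_contra hcon
    have : k ≤ 3 := by omega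
    have : k ^ 2 ≤ 9 := by nlinarith
    omega

open Polynomial in
theorem emp_all {p : ℕ} (hp : p = 0 ∨ p.Prime) {k : Type u} [Field k] [CharP k p]
    {r m : ℕ} (hr : 10 ≤ r) (hm : 0 < m) :
    ∃ F : MvPolynomial (Fin (r + 1)) k, F ≠ 0 ∧
      ∀ (c : k) (a : Fin r → k), MvPolynomial.eval (Fin.cons c a : Fin (r + 1) → k) F ≠ 0 →
        ∀ d : ℕ, (d : ℝ) ≤ √(r : ℝ) * m → JetDim r m c a d := by
  obtain ⟨F, hF, hF'⟩ := coll_end p (k := k) (r := r) (m := m) fun d hd => by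
    have e1 : (∑ _i : Unit, r : ℕ) = r := by simp
    have e2 : (∑ _i : Unit, r * m : ℕ) = r * m := by simp
    rcases cases_eq hm (by omega) hd with h | ⟨l, hl, hrl, hdl⟩
    · obtain ⟨τ, h0, h1, hE⟩ := strict @Pool.Agent.TH98.CF.EmpG_final hp (ι := Unit)
        (r := fun _ => r) (w := fun _ => m) (d := d) (fun _ => by omega) (by rw [e1]; omega)
        (by rw [e1, e2]; push_cast; exact h)
      exact key_coll h0 h1 hE
    · obtain ⟨τ, h0, h1, hE⟩ := boundary @Pool.Agent.TH98.CF.EmpG_final hp (ι := Unit)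
        (r := fun _ => r) (w := fun _ => m) (d := d) (fun _ => by omega) hl (by rw [e1]; exact hrl)
        (by rw [hdl]; exact Nat.mul_pos hm (by omega))
        (by rw [e2, hdl, hrl]; exact le_of_eq (by ring))
      exact key_coll h0 h1 hE
  refine ⟨F, hF, fun c a hc d hd => ?_⟩
  have h1 : NoForm (jetIdeal m c a) d := fun P hP hP' => hF' c a hc d (by rw [mul_comm]; exact hd) P hP hP'
  exact jet_full h1.rk d le_rfl

/-- the trivial case -/
theorem triv_all {k : Type u} [Field k] {r : ℕ} (c : k) (a : Fin r → k) (d : ℕ) :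
    JetDim r 0 c a d := by
  refine jet_indep (f := 0) ?_ d (Nat.zero_le d)
  have : r * (0 + 1).choose 2 = 0 := by simp
  rw [this]
  exact ⟨fun i => i.elim0, fun i => i.elim0, fun c _ i => i.elim0⟩

theorem coll_all {r m : ℕ} (hr : 10 ≤ r) (k : Type u) [Field k] :
    ∃ F : MvPolynomial (Fin (r + 1)) k, F ≠ 0 ∧
      ∀ (c : k) (a : Fin r → k), MvPolynomial.eval (Fin.cons c a : Fin (r + 1) → k) F ≠ 0 →
        ∀ d : ℕ, (d : ℝ) ≤ √(r : ℝ) * m ∨ √(r : ℝ) * (m + 1) ≤ d + 3 → JetDim r m c a d := by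
  obtain ⟨p, hp⟩ := CharP.exists k
  have hp' : p = 0 ∨ p.Prime := (CharP.char_is_prime_or_zero k p).symm
  rcases Nat.eq_zero_or_pos m with hm | hm
  · subst hm
    exact ⟨1, one_ne_zero, fun c a _ d _ => triv_all c a d⟩
  · obtain ⟨F, hF, hF'⟩ := emp_all (k := k) (r := r) (m := m) hp' hr hm
    obtain ⟨G, hG, hG'⟩ := ind_all (k := k) (r := r) (m := m) hp' hr
    refine ⟨F * G, mul_ne_zero hF hG, fun c a hc d hd => ?_⟩
    rw [map_mul] at hc
    rcases hd with hd | hd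
    · exact hF' c a (left_ne_zero_of_mul hc) d hd
    · exact hG' c a (right_ne_zero_of_mul hc) d hd

end Pool.Agent.TH518.CW
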