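import Pool.Agent.TH518.CW.Ker

/-! Simple points in general position: the kernel of the conditions of several points. -/

set_option autoImplicit false

namespace Pool.Agent.TH518.CW

open Pool.Agent.TH603.EL Pool.Agent.TH716.CF Pool.Agent.TH98.CF

theorem EmpG_addF {p : ℕ} (hp : p = 0 ∨ p.Prime) {n v : ℕ} {w : Fin n → ℕ} {S : Set (ℤ × ℤ)}
    (hS : S.Finite) {W : Finset (ℤ × ℤ)} (hWS : ∀ q ∈ W, q ∈ S) (hc : S.ncard ≤ W.card + v)
    (hW0 : ∀ q ∈ W, 0 ≤ q.2)
    (hrow : ∀ (k : ℕ), ∀ q ∈ W, ∀ q' ∈ W, (k : ℤ) ≤ q.2 → (k : ℤ) ≤ q'.2 →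
      q'.1 - q.1 < ((∑ i, (w i - k) : ℕ) : ℤ)) :
    EmpG p (fun _ : Fin n ⊕ Fin v => 1) (Sum.elim w fun _ => 1) S := by
  classical
  obtain ⟨K, _, _, hK⟩ := exists_infinite hp
  have hinf : ({0}ᶜ : Set K).Infinite := (Set.finite_singleton (0 : K)).infinite_compl
  let e : ℕ ↪ ({0}ᶜ : Set K) := hinf.natEmbedding
  let x : Fin n → K := fun i => (e i : K)
  have hinj : Function.Injective x := by
    intro i j hij
    have h1 := e.injective (Subtype.ext hij)
    exact Fin.ext h1
  have hx : ∀ i, x i ≠ 0 := fun i => (e i).2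
  have hg0 : ∀ i, IsGerm (gm (x i) (hx i)) := fun i => ⟨gm_const _ _, by rw [gm_x]; simp⟩
  have hW : ∀ f : Lau K, (∀ q, f.coeff q ≠ 0 → q ∈ W) →
      (∀ i, f ∈ J (gm (x i) (hx i)) 1 ^ w i) → f = 0 := by
    intro f h1 h2
    refine final_rows (K := K) (ι := Fin n) (x := x) hinj hx
      (φ := fun i => gm (x i) (hx i)) (fun i => gm_const _ _) (fun i => gm_x _ _)
      (fun i => gm_y _ _) (r := fun _ => 1) (w := w) (S := (W : Set (ℤ × ℤ))) hW0 ?_ ?_
      (fun i => h2 i)
    · intro k q hq q' hq' hk hk'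
      have := hrow k q hq q' hq' hk hk'
      simpa using this
    · intro q hq
      exact h1 q (Finsupp.mem_support_iff.1 hq)
  let U : Submodule K (Lau K) :=
    { carrier := {f | (∀ q, f.coeff q ≠ 0 → q ∈ S) ∧ ∀ i, f ∈ J (gm (x i) (hx i)) 1 ^ w i}
      add_mem' := by
        rintro f g ⟨h1, h2⟩ ⟨h3, h4⟩
        refine ⟨fun q hq => ?_, fun i => Ideal.add_mem _ (h2 i) (h4 i)⟩
        by_contra hqS
        apply hq
        rw [AddMonoidAlgebra.coeff_add, Finsupp.add_apply]
        have e1 : f.coeff q = 0 := by by_contra h; exact hqS (h1 q h)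
        have e2 : g.coeff q = 0 := by by_contra h; exact hqS (h3 q h)
        rw [e1, e2, add_zero]
      zero_mem' := ⟨fun q hq => absurd rfl hq, fun i => Ideal.zero_mem _⟩
      smul_mem' := by
        rintro c f ⟨h1, h2⟩
        refine ⟨fun q hq => ?_, fun i => ?_⟩
        · apply h1
          intro h3
          apply hq
          rw [AddMonoidAlgebra.coeff_smul, Finsupp.smul_apply, h3, smul_zero]
        · rw [smul_eq]
          exact Ideal.mul_mem_left _ _ (h2 i) }
  let D : Finset (ℤ × ℤ) := hS.toFinset \ W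
  let R : U →ₗ[K] (D → K) :=
    { toFun := fun f q => (f : Lau K).coeff q
      map_add' := fun f g => by
        funext q
        show ((f : Lau K) + g).coeff q = _
        rw [AddMonoidAlgebra.coeff_add, Finsupp.add_apply]
        rfl
      map_smul' := fun c f => by
        funext q
        show (c • (f : Lau K)).coeff q = _
        rw [AddMonoidAlgebra.coeff_smul, Finsupp.smul_apply]
        rfl }
  have hRinj : Function.Injective R := by
    rw [← LinearMap.ker_eq_bot, LinearMap.ker_eq_bot']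
    rintro ⟨f, hf1, hf2⟩ h
    apply Subtype.ext
    show f = 0
    refine hW f (fun q hq => ?_) hf2
    by_contra hqW
    apply hq
    exact congrFun h ⟨q, Finset.mem_sdiff.2 ⟨hS.mem_toFinset.2 (hf1 q hq), hqW⟩⟩
  have hUfd : FiniteDimensional K U := FiniteDimensional.of_injective R hRinj
  have hUr : Module.finrank K U ≤ v := by
    have h1 := LinearMap.finrank_le_finrank_of_injective hRinj
    rw [Module.finrank_fintype_fun_eq_card, Fintype.card_coe] at h1
    have h2 : W ⊆ hS.toFinset := fun q hq => hS.mem_toFinset.2 (hWS q hq)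
    have h3 : D.card = hS.toFinset.card - W.card := Finset.card_sdiff_of_subset h2
    have h4 : hS.toFinset.card = S.ncard := (Set.ncard_eq_toFinset_card S hS).symm
    omega
  obtain ⟨φ, hφ, hφ'⟩ := exists_points v U hUfd hUr
  refine ⟨K, inferInstance, inferInstance, Sum.elim (fun i => gm (x i) (hx i)) φ, ?_, ?_⟩
  · rintro (i | i)
    · exact hg0 i
    · exact hφ i
  · intro f h1 h2
    refine hφ' f ⟨h1, fun i => h2 (Sum.inl i)⟩ fun i => ?_
    have h3 := h2 (Sum.inr i)
    simp only [Sum.elim_inr, pow_one] at h3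
    exact mem_J.1 h3 0 (by norm_num)

end Pool.Agent.TH518.CW
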