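import Pool.Agent.TH545.CF.EndA

/-! Independence at one configuration over one field of characteristic `p` implies independence at
generic points over every field of characteristic `p`. -/

set_option autoImplicit false

namespace Pool.Agent.TH518.CW

open MvPolynomial Pool.Agent.H932R5 Pool.Agent.TH545.CF

universe u v

section gen
variable {E n : ℕ}

/-- independence passes from one configuration to generic points over every field of the same
characteristic -/
theorem surjAt_transfer {K : Type v} [Field K] {L : Type u} [Field L] (p : ℕ) [CharP K p]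
    [CharP L p] {w : Fin n → ℕ} {d : ℕ} {x : Fin n → Fin (E + 1) → K} (hx : SurjAt w x d)
    {P : Fin n → Fin (E + 1) → L}
    (hP : AlgebraicIndependent (⊥ : Subfield L) (fun q : Fin n × Fin (E + 1) => P q.1 q.2)) :
    SurjAt w P d := by
  classical
  obtain ⟨a, ha⟩ := Pool.Agent.TH15.Nag.exists_rows
    (fun (s : {s // s ∈ dg E (d + 1)}) (q : Cnd E w) =>
      aeval (fun r : Fin n × Fin (E + 1) => x r.1 r.2) (ent q s.1)) (by
    intro u hu
    funext q
    obtain ⟨f, hf, hfy⟩ := hx (Pi.single q 1)
    have hfs : ∀ α, coeff α f ≠ 0 → α ∈ Td E d := mem_mspan.1 hf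
    have h1 : ∑ q', cnd w x f q' * u q' = 0 := by
      have h2 : ∀ q', cnd w x f q' * u q' = ∑ s : {s // s ∈ dg E (d + 1)},
          coeff s.1 f * (aeval (fun r : Fin n × Fin (E + 1) => x r.1 r.2) (ent q' s.1) * u q') := by
        intro q'
        rw [cnd_expand x hfs q', Finset.sum_mul]
        exact Finset.sum_congr rfl fun s _ => by ring
      rw [Finset.sum_congr rfl fun q' _ => h2 q', Finset.sum_comm]
      refine Finset.sum_eq_zero fun s _ => ?_
      rw [← Finset.mul_sum, hu s, mul_zero]
    rw [hfy] at h1
    simpa [Pi.single_apply] using h1)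
  let D : MvPolynomial (Fin n × Fin (E + 1)) ℤ :=
    (Matrix.of fun (j : Cnd E w) (q : Cnd E w) => ent q (a j).1).det
  have hDK : aeval (fun r : Fin n × Fin (E + 1) => x r.1 r.2) D ≠ 0 := by
    intro h0
    apply ha
    rw [← h0]
    show _ = (aeval (fun r : Fin n × Fin (E + 1) => x r.1 r.2)) (Matrix.det _)
    rw [AlgHom.map_det]
    rfl
  have hDL : aeval (fun r : Fin n × Fin (E + 1) => P r.1 r.2) D ≠ 0 := by
    intro h0
    apply hDK
    -- all coefficients are divisible by `p`
    have h1 : map (Int.castRingHom (⊥ : Subfield L)) D = 0 := by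
      apply (algebraicIndependent_iff.1 hP)
      rw [← h0]
      rw [aeval_def, aeval_def, eval₂_map]
      congr 1
    have h2 : ∀ α, ((coeff α D : ℤ) : K) = 0 := by
      intro α
      have h3 := congrArg (coeff α) h1
      rw [coeff_map, coeff_zero] at h3
      have h4 : ((coeff α D : ℤ) : L) = 0 := by
        have := congrArg (algebraMap (⊥ : Subfield L) L) h3
        simpa using this
      rw [CharP.intCast_eq_zero_iff L p] at h4
      rw [CharP.intCast_eq_zero_iff K p]
      exact h4
    have h3 : map (Int.castRingHom K) D = 0 := by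
      ext α
      rw [coeff_map, coeff_zero]
      exact h2 α
    have h4 : aeval (fun r : Fin n × Fin (E + 1) => x r.1 r.2) D =
        eval (fun r : Fin n × Fin (E + 1) => x r.1 r.2) (map (Int.castRingHom K) D) := by
      rw [eval_map, aeval_def]
      congr 1
    rw [h4, h3, map_zero]
  have hdet : (Matrix.of fun (j : Cnd E w) (q : Cnd E w) =>
      aeval (fun r : Fin n × Fin (E + 1) => P r.1 r.2) (ent q (a j).1)).det ≠ 0 := by
    intro h0
    apply hDL
    show (aeval (fun r : Fin n × Fin (E + 1) => P r.1 r.2)) (Matrix.det _) = _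
    rw [AlgHom.map_det, ← h0]
    rfl
  let e : Fin (Fintype.card (Cnd E w)) ≃ Cnd E w := (Fintype.equivFin _).symm
  refine surj_of_li (N := Fintype.card (Cnd E w))
    (fun i => monomial (a (e i)).1 (1 : L)) (fun i => ?_) (fun c hc => ?_) (card_Cnd w)
  · rw [mem_mspan]
    intro α hα
    rw [coeff_monomial] at hα
    have h1 : (a (e i)).1 = α := by
      by_contra h
      exact hα (if_neg h)
    rw [← h1, ← coe_dg]
    exact (a (e i)).2
  · rw [mem_Z_iff, map_sum] at hc
    have h5 : (fun j => c (e.symm j)) = 0 := by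
      apply Matrix.eq_zero_of_vecMul_eq_zero hdet
      funext q
      have h6 := congrFun hc q
      rw [Finset.sum_apply, Pi.zero_apply] at h6
      rw [Matrix.vecMul, dotProduct, Pi.zero_apply, ← h6, ← e.sum_comp]
      refine Finset.sum_congr rfl fun i _ => ?_
      rw [Equiv.symm_apply_apply, Matrix.of_apply, ent_aeval, map_smul, Pi.smul_apply, smul_eq_mul]
    intro i
    have h6 := congrFun h5 (e i)
    simpa using h6

/-- few forms at one configuration: the conditions are independent -/
theorem surjAt_of_forms {K : Type v} [Field K] {w : Fin n → ℕ} {d v : ℕ}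
    {x : Fin n → Fin (E + 1) → K} {y : Fin v → Fin (E + 1) → K}
    (hv : ∑ i, (w i + E).choose (E + 1) + v = (d + E + 1).choose (E + 1))
    (h : ∀ F : MvPolynomial (Fin (E + 2)) K, F.IsHomogeneous d → (∀ i, F ∈ hI (x i) ^ w i) →
      (∀ j, F ∈ hI (y j) ^ 1) → F = 0) : SurjAt w x d := by
  classical
  have hfin := finite_mspan (K := K) (dg E (d + 1))
  have hVd : Module.finrank K ↥(Vd d w x) ≤ v := by
    let R : ↥(Vd d w x) →ₗ[K] (Fin v → K) :=
      { toFun := fun F j => coeff 0 (shift (y j) (deh K E F.1))
        map_add' := fun F G => by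
          funext j
          show coeff 0 (shift (y j) (deh K E (F.1 + G.1))) = _
          rw [map_add, map_add, coeff_add]
          rfl
        map_smul' := fun c F => by
          funext j
          show coeff 0 (shift (y j) (deh K E (c • F.1))) = _
          rw [map_smul, map_smul, coeff_smul]
          rfl }
    have hR : Function.Injective R := by
      rw [← LinearMap.ker_eq_bot, LinearMap.ker_eq_bot']
      rintro ⟨F, hF⟩ h0
      apply Subtype.ext
      have hF' := mem_Vd.1 hF
      have hF2 := hF'.2
      rw [mem_Z] at hF2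
      refine h F hF'.1 (fun i => (mem_hI_iff hF'.1).2 (hF2 i)) fun j => ?_
      rw [mem_hI_iff hF'.1, mem_pt_pow_iff]
      intro s hs
      have hs0 : s = 0 := by
        rw [← Finsupp.degree_eq_zero_iff]
        omega
      rw [hs0]
      exact congrFun h0 j
    have h1 := LinearMap.finrank_le_finrank_of_injective hR
    rwa [Module.finrank_fin_fun] at h1
  rw [finrank_Vd_eq, ← coe_dg] at hVd
  unfold SurjAt
  rw [← coe_dg]
  let L : ↥(mspan K (↑(dg E (d + 1)) : Set (Fin (E + 1) →₀ ℕ))) →ₗ[K] (Cnd E w → K) :=
    (cnd w x).comp (Submodule.subtype _)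
  have h1 := LinearMap.finrank_range_add_finrank_ker L
  rw [finrank_mspan, card_dg] at h1
  have h3 : Module.finrank K (LinearMap.ker L) = Module.finrank K
      ↥(mspan K (↑(dg E (d + 1)) : Set (Fin (E + 1) →₀ ℕ)) ⊓
        Submodule.restrictScalars K (Z w x)) := by
    refine LinearEquiv.finrank_eq (LinearEquiv.ofBijective
      { toFun := fun f => ⟨f.1.1, Submodule.mem_inf.2 ⟨f.1.2, mem_Z_iff.2 f.2⟩⟩
        map_add' := fun f g => rfl
        map_smul' := fun a f => rfl } ⟨?_, ?_⟩)
    · intro f g hfg
      have h : f.1.1 = g.1.1 :=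
        congrArg (fun z : ↥(mspan K (↑(dg E (d + 1)) : Set (Fin (E + 1) →₀ ℕ)) ⊓
          Submodule.restrictScalars K (Z w x)) => (z : MvPolynomial (Fin (E + 1)) K)) hfg
      exact Subtype.ext (Subtype.ext h)
    · rintro ⟨f, hf⟩
      rw [Submodule.mem_inf] at hf
      exact ⟨⟨⟨f, hf.1⟩, mem_Z_iff.1 hf.2⟩, rfl⟩
  have e : d + 1 + E = d + E + 1 := by ring
  rw [h3, e] at h1
  have hrange : LinearMap.range L = ⊤ := by
    apply Submodule.eq_top_of_finrank_eq
    have h2 := Submodule.finrank_le (LinearMap.range L)
    rw [Module.finrank_fintype_fun_eq_card, card_Cnd] at h2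
    rw [Module.finrank_fintype_fun_eq_card, card_Cnd]
    omega
  intro z
  have hz : z ∈ LinearMap.range L := by rw [hrange]; exact Submodule.mem_top
  obtain ⟨f, hf⟩ := hz
  exact ⟨f.1, f.2, hf⟩

end gen

end Pool.Agent.TH518.CW
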