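import Pool.Agent.TH518.CW.GeomG
import Pool.Agent.TH518.CW.KerG
import Pool.Agent.TH518.CW.Pts
import Pool.Agent.TH716.CF.KeyA

/-! Generic points in every characteristic: independence. -/

set_option autoImplicit false

namespace Pool.Agent.TH518.CW

open Pool.Agent.TH716.CF Pool.Agent.H932R5 Pool.Agent.TH545.CF

universe u

theorem sum_sub_choose (w M : ℕ) (h : w ≤ M) :
    ∑ k ∈ Finset.range M, (w - k) = (w + 1).choose 2 := by
  induction w generalizing M with
  | zero => simp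
  | succ w ih =>
    obtain ⟨M', rfl⟩ : ∃ M', M = M' + 1 := ⟨M - 1, by omega⟩
    rw [Finset.sum_range_succ']
    have h1 : ∀ k ∈ Finset.range M', w + 1 - (k + 1) = w - k := fun k _ => by omega
    rw [Finset.sum_congr rfl h1, ih M' (by omega), Nat.sub_zero, Nat.choose_succ_succ' (w + 1) 1,
      Nat.choose_one_right]
    ring

theorem three_sqrt_le {n : ℕ} (hn : 10 ≤ n) : 3 * √(n : ℝ) ≤ n := by
  have hnR : (10 : ℝ) ≤ n := by exact_mod_cast hn
  have h1 : √(n : ℝ) * √(n : ℝ) = n := Real.mul_self_sqrt (by linarith)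
  have h2 : 3 ≤ √(n : ℝ) := Real.le_sqrt_of_sq_le (by linarith)
  nlinarith

theorem surj_generic {p : ℕ} (hp : p = 0 ∨ p.Prime) {k : Type u} [Field k] [CharP k p]
    {n d b : ℕ} (hn : 10 ≤ n) {w : Fin n → ℕ} (hw : ∀ i, b ≤ w i ∧ w i ≤ b + 1)
    (hd : (n : ℝ) + ∑ i, (w i : ℝ) < √(n : ℝ) * (d + 3) ∨
      ∃ l : ℕ, n = l ^ 2 ∧ n + ∑ i, w i ≤ l * (d + 3))
    {P : Fin n → Fin 2 → k}
    (hP : AlgebraicIndependent (⊥ : Subfield k) (fun q : Fin n × Fin 2 => P q.1 q.2)) :
    SurjAt (E := 1) w P d := by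
  classical
  have hnR : (10 : ℝ) ≤ n := by exact_mod_cast hn
  obtain ⟨R, hR⟩ : ∃ R : ℕ → ℕ, R = fun k => ∑ i, (w i - k) := ⟨_, rfl⟩
  have hRk : ∀ k, k < b + 1 → R k + n * k = ∑ i, w i := by
    intro k hk
    rw [hR]
    simp only
    have h1 : n * k = ∑ _i : Fin n, k := by simp
    rw [h1, ← Finset.sum_add_distrib]
    refine Finset.sum_congr rfl fun i _ => ?_
    have := (hw i).1
    omega
  have hRkR : ∀ k, k < b + 1 → (R k : ℝ) + n * k = ∑ i, (w i : ℝ) := by
    intro k hk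
    exact_mod_cast hRk k hk
  have hcard : ∑ k ∈ Finset.range (b + 1), R k = ∑ i, (w i + 1).choose 2 := by
    rw [hR]
    simp only
    rw [Finset.sum_comm]
    exact Finset.sum_congr rfl fun i _ => sum_sub_choose _ _ (hw i).2
  have key : ∃ (s τ : ℝ) (c : ℤ), 0 < τ ∧ τ < 1 ∧ Irrational τ ∧ (c : ℝ) = s - 3 * (1 + τ) ∧
      9 < s ∧ s ≤ n ∧ RowsG R (b + 1) d s τ := by
    rcases hd with hd | ⟨l, hl, hd⟩
    · obtain ⟨s, τ, c, g1, g2, g3, g4, g5, g6, g7⟩ := rowsG_strict (R := R) (M := b + 1) (d := d)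
        (σ := √(n : ℝ)) (e := √(n : ℝ) * (d + 3) - (n + ∑ i, (w i : ℝ)))
        (by rw [Real.lt_sqrt (by norm_num)]; linarith) (by linarith) (by
          intro k hk
          rw [Real.sq_sqrt (by linarith)]
          have := hRkR k hk
          linarith)
      exact ⟨s, τ, c, g1, g2, g3, g4, g5, g6.trans (three_sqrt_le hn), g7⟩
    · have hl4 : 4 ≤ l := by
        by_contra hcon
        have h1 : l ≤ 3 := by omega
        have : l ^ 2 ≤ 3 ^ 2 := Nat.pow_le_pow_left h1 2
        omega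
      obtain ⟨s, τ, c, g1, g2, g3, g4, g5, g6, g7⟩ := rowsG_square (R := R) (n := l)
        (M := b + 1) (d := d) hl4 (by
          intro k hk
          have := hRk k hk
          rw [← hl]
          linarith)
      refine ⟨s, τ, c, g1, g2, g3, g4, g5, g6.trans ?_, g7⟩
      rw [hl]
      push_cast
      have : (4 : ℝ) ≤ l := by exact_mod_cast hl4
      nlinarith
  obtain ⟨s, τ, c, g1, g2, g3, g4, g5, g6, g7⟩ := key
  obtain ⟨W, hWc, hWS, hW0, hrow⟩ := exists_WG g5 g7 (by
    intro k l hkl hl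
    have h1 := hRkR k (by omega)
    have h2 := hRkR l hl
    have h3 : (k : ℝ) ≤ l := by exact_mod_cast hkl
    have h4 : s * ((l : ℝ) - k) ≤ n * ((l : ℝ) - k) :=
      mul_le_mul_of_nonneg_right g6 (by linarith)
    linarith)
  rw [hcard] at hWc
  obtain ⟨hfin, hfc⟩ := fl_sh_card (d := d) g4 g3
  have hWle : W.card ≤ (FlS (Sh d s τ)).ncard := by
    rw [← Set.ncard_coe_finset W]
    exact Set.ncard_le_ncard (fun q hq => hWS q hq) hfin
  have hE := EmpG_addF (v := (d + 2).choose 2 - ∑ i, (w i + 1).choose 2) (w := w) hp hfin hWS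
    (by omega) hW0 (by
      intro k q hq q' hq' hk hk'
      have := hrow k q hq q' hq' hk hk'
      rw [hR] at this
      exact this)
  obtain ⟨L, _, _, x, hx⟩ := key_points g1 g2 (tri_of_fl g4 hE)
  have h1 : SurjAt (E := 1) w (fun i => x (Sum.inl i)) d := by
    refine surjAt_of_forms (E := 1) (v := (d + 2).choose 2 - ∑ i, (w i + 1).choose 2)
      (x := fun i => x (Sum.inl i)) (y := fun j => x (Sum.inr j)) ?_ ?_
    · show ∑ i, (w i + 1).choose 2 + ((d + 2).choose 2 - ∑ i, (w i + 1).choose 2) =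
        (d + 2).choose 2
      omega
    · intro F hF hF1 hF2
      refine hx F hF ?_
      rintro (i | j)
      · rw [← Pool.Agent.H519R3.AC.hI_plane]
        exact hF1 i
      · rw [← Pool.Agent.H519R3.AC.hI_plane]
        exact hF2 j
  exact surjAt_transfer p h1 hP

end Pool.Agent.TH518.CW
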