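import Pool.Agent.TH518.CW.FinP
import Pool.Agent.TH545.CF.Main
import Pool.Agent.TH98.CF.Final
import Pool.Agent.TH716.CF.Bd

/-! Generic points in every characteristic: the degrees of effective classes. -/

set_option autoImplicit false

namespace Pool.Agent.TH518.CW

open MvPolynomial Pool.Agent.TH716.CF Pool.Agent.H932R5 Pool.Agent.TH545.CF

universe u

theorem mono_max {k : Type u} [Field k] {n d b : ℕ} {w : Fin n → ℕ} {P : Fin n → Fin 2 → k}
    (h : SurjAt (E := 1) (fun i => max (w i) b) P d) : SurjAt (E := 1) w P d :=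
  h.mono_w fun _ => le_max_left _ _

/-- the boundary case of Nagata's theorem for a square number of points -/
theorem lt_of_form {k : Type u} [Field k] {l : ℕ} (hl : 4 ≤ l) {P : Fin (l ^ 2) → Fin 2 → k}
    (hP : AlgebraicIndependent (⊥ : Subfield k) (fun q : Fin (l ^ 2) × Fin 2 => P q.1 q.2))
    {w : Fin (l ^ 2) → ℕ} {d : ℕ} (hd : 0 < d) {F : MvPolynomial (Fin 3) k}
    (hF : F.IsHomogeneous d) (hne : F ≠ 0)
    (hi : ∀ i, F ∈ (Ideal.span {X 1 - C (P i 0) * X 0, X 2 - C (P i 1) * X 0} :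
      Ideal (MvPolynomial (Fin 3) k)) ^ (w i)) : ∑ i, w i < l * d := by
  by_contra hcon
  rw [not_lt] at hcon
  obtain ⟨p, hp⟩ := CharP.exists k
  have hp' : p = 0 ∨ p.Prime := (CharP.char_is_prime_or_zero k p).symm
  have e : (∑ _i : Fin (l ^ 2), 1 : ℕ) = l ^ 2 := by simp
  obtain ⟨τ, h0, h1, hE⟩ := boundary @Pool.Agent.TH98.CF.EmpG_final hp' (ι := Fin (l ^ 2))
    (r := fun _ => 1) (w := w) (d := d) (fun _ => le_rfl) hl e hd (by simpa using hcon)
  obtain ⟨K, i1, i2, x, hx⟩ := key_points h0 h1 hE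
  have hx' : NoForm x w d := hx
  exact hne (hx'.generic p hP F hF hi)

end Pool.Agent.TH518.CW
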