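import Pool.Agent.TH518.CW.Cnt
import Pool.Agent.H932R2.Main

/-! The rows of the flattened triangle are long enough. -/

set_option autoImplicit false

namespace Pool.Agent.TH518.CW

open Pool.Agent.TH716.CF Pool.Agent.H932R2

/-- the rows contain the required intervals -/
def Rows (r m d : ℕ) (s τ : ℝ) : Prop :=
  ∀ k : ℕ, k < m → ∀ a : ℤ, -((d : ℝ) * (1 + τ)) + s * k ≤ a →
    (a : ℝ) < -((d : ℝ) * (1 + τ)) + s * k + r * ((m : ℝ) - k) →
    ∃ j : ℤ, 0 ≤ j ∧ -((d : ℝ) * (1 + τ)) + s * (k + j) ≤ a ∧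
      (a : ℝ) ≤ -((d : ℝ) * (1 + τ)) + 3 * d + (s - 9) * j

theorem exists_j {s x : ℝ} (hs : 9 < s) {k : ℕ} (hx : s * k ≤ x) :
    ∃ j : ℤ, 0 ≤ j ∧ s * (k + j) ≤ x ∧ x < s * (k + j + 1) := by
  have hs0 : 0 < s := by linarith
  refine ⟨⌊x / s⌋ - k, ?_, ?_, ?_⟩
  · have : (k : ℤ) ≤ ⌊x / s⌋ := by
      rw [Int.le_floor, le_div_iff₀ hs0]
      push_cast
      linarith
    omega
  · have h1 := Int.floor_le (x / s)
    rw [le_div_iff₀ hs0] at h1
    push_cast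
    linarith
  · have h1 := Int.lt_floor_add_one (x / s)
    rw [div_lt_iff₀ hs0] at h1
    push_cast
    linarith

theorem rows_strict {r m d : ℕ} (hr : 10 ≤ r) (h : √(r : ℝ) * (m + 1) < d + 3) :
    ∃ (s τ : ℝ) (c : ℤ), 0 < τ ∧ τ < 1 ∧ Irrational τ ∧ (c : ℝ) = s - 3 * (1 + τ) ∧ 9 < s ∧
      s ≤ r ∧ Rows r m d s τ := by
  have hrR : (10 : ℝ) ≤ r := by exact_mod_cast hr
  obtain ⟨σ, hσ⟩ : ∃ σ, σ = √(r : ℝ) := ⟨_, rfl⟩
  have hσ2 : σ ^ 2 = r := by rw [hσ]; exact Real.sq_sqrt (by linarith)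
  have hσ0 : 0 ≤ σ := by rw [hσ]; exact Real.sqrt_nonneg _
  have hσ3 : 3 < σ := by nlinarith
  rw [← hσ] at h
  have hm0 : (0 : ℝ) ≤ m := Nat.cast_nonneg m
  have hd0 : (0 : ℝ) ≤ d := Nat.cast_nonneg d
  obtain ⟨τ0, hτ0⟩ : ∃ τ0 : ℝ, τ0 = σ - ((⌈3 * σ⌉ - 1 : ℤ) : ℝ) / 3 := ⟨_, rfl⟩
  have hc1 : 3 * σ ≤ ⌈3 * σ⌉ := Int.le_ceil _
  have hc2 : (⌈3 * σ⌉ : ℝ) < 3 * σ + 1 := Int.ceil_lt_add_one _
  have h0 : 0 < τ0 := by
    rw [hτ0]; push_cast; linarith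
  have h1 : τ0 < 1 := by
    rw [hτ0]; push_cast; linarith
  obtain ⟨e, he⟩ : ∃ e : ℝ, e = 3 * σ * ((3 * d + 9) - 3 * σ * (m + 1)) := ⟨_, rfl⟩
  have he0 : 0 < e := by
    rw [he]
    apply mul_pos (by linarith)
    nlinarith
  have hD0 : (0 : ℝ) < 3 * d + 9 := by linarith
  obtain ⟨η1, hη1⟩ : ∃ η1 : ℝ, η1 = min (min (3 * σ - 9) (e / (3 * d + 9))) (3 * τ0) := ⟨_, rfl⟩
  have hη1pos : 0 < η1 := by
    rw [hη1]
    exact lt_min (lt_min (by linarith) (div_pos he0 hD0)) (by linarith)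
  have hηa : η1 ≤ 3 * σ - 9 := by rw [hη1]; exact (min_le_left _ _).trans (min_le_left _ _)
  have hηb : η1 ≤ e / (3 * d + 9) := by rw [hη1]; exact (min_le_left _ _).trans (min_le_right _ _)
  have hηc : η1 ≤ 3 * τ0 := by rw [hη1]; exact min_le_right _ _
  obtain ⟨τ, hτi, hτa, hτb⟩ := exists_irrational_btwn (show τ0 - η1 / 3 < τ0 by linarith)
  obtain ⟨η, hη⟩ : ∃ η : ℝ, η = 3 * (τ0 - τ) := ⟨_, rfl⟩
  have hη0 : 0 < η := by rw [hη]; linarith
  have hηlt : η < η1 := by rw [hη]; linarith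
  obtain ⟨s, hs⟩ : ∃ s : ℝ, s = 3 * σ - η := ⟨_, rfl⟩
  have hs9 : 9 < s := by rw [hs]; linarith
  have hsr : s ≤ r := by rw [hs, ← hσ2]; nlinarith
  refine ⟨s, τ, ⌈3 * σ⌉ - 1 - 3, by linarith, by linarith, hτi, ?_, hs9, hsr, ?_⟩
  · rw [hs, hη, hτ0]
    push_cast
    ring
  · intro k hk a ha1 ha2
    have hkR : (k : ℝ) + 1 ≤ m := by exact_mod_cast hk
    have hk0 : (0 : ℝ) ≤ k := Nat.cast_nonneg k
    obtain ⟨x, hx⟩ : ∃ x : ℝ, x = a + (d : ℝ) * (1 + τ) := ⟨_, rfl⟩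
    obtain ⟨j, hj0, hj1, hj2⟩ := exists_j hs9 (k := k) (x := x) (by rw [hx]; linarith)
    refine ⟨j, hj0, by rw [hx] at hj1; linarith, ?_⟩
    have hx2 : x < s * k + r * ((m : ℝ) - k) := by rw [hx]; linarith
    -- the main inequality
    have hηD : η * (3 * d + 9) ≤ e := by
      have := (hηlt.le.trans hηb)
      rwa [le_div_iff₀ hD0] at this
    have f1 : 0 ≤ s * (3 * d + 9 - s * (k + 1)) - 9 * (r * ((m : ℝ) - k)) := by
      have e1 : s * (3 * d + 9 - s * (k + 1)) - 9 * (r * ((m : ℝ) - k)) =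
          e - η * (3 * d + 9) + η * (6 * σ - η) * (k + 1) := by
        rw [hs, he, ← hσ2]; ring
      rw [e1]
      have : 0 ≤ η * (6 * σ - η) * (k + 1) := by
        apply mul_nonneg (mul_nonneg hη0.le (by linarith)) (by linarith)
      linarith
    have f2 : (s - 9) * (x - s * (k + 1)) ≤ (s - 9) * (s * j) := by
      apply mul_le_mul_of_nonneg_left _ (by linarith)
      nlinarith
    have f3 : s * x ≤ s * (3 * d + (s - 9) * j) := by nlinarith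
    have f4 : x ≤ 3 * d + (s - 9) * j := le_of_mul_le_mul_left f3 (by linarith)
    rw [hx] at f4
    linarith

theorem rows_square {n m d : ℕ} (hn : 4 ≤ n) (h : d + 3 = n * (m + 1)) :
    ∃ (s τ : ℝ) (c : ℤ), 0 < τ ∧ τ < 1 ∧ Irrational τ ∧ (c : ℝ) = s - 3 * (1 + τ) ∧ 9 < s ∧
      s ≤ ((n ^ 2 : ℕ) : ℝ) ∧ Rows (n ^ 2) m d s τ := by
  have hnR : (4 : ℝ) ≤ n := by exact_mod_cast hn
  have hd0 : (0 : ℝ) ≤ d := Nat.cast_nonneg d
  have hD : (0 : ℝ) < 1 / (3 * (d + 1)) := by positivity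
  obtain ⟨τ, hτi, hτa, hτb⟩ := exists_irrational_btwn
    (show (1 : ℝ) / 3 - 1 / (3 * (d + 1)) < 1 / 3 by linarith)
  obtain ⟨ε, hε⟩ : ∃ ε : ℝ, ε = 1 / 3 - τ := ⟨_, rfl⟩
  have hε0 : 0 < ε := by rw [hε]; linarith
  have hε1 : ε * (3 * (d + 1)) < 1 := by
    have : ε < 1 / (3 * (d + 1)) := by rw [hε]; linarith
    rwa [lt_div_iff₀ (by positivity)] at this
  have hε2 : ε < 1 / 3 := by nlinarith
  refine ⟨3 * n - 3 * ε, τ, 3 * n - 4, by linarith, by linarith, hτi, ?_, by linarith, ?_, ?_⟩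
  · push_cast
    rw [hε]
    ring
  · push_cast
    nlinarith
  · intro k hk a ha1 ha2
    have hkR : (k : ℝ) + 1 ≤ m := by exact_mod_cast hk
    have hk0 : (0 : ℝ) ≤ k := Nat.cast_nonneg k
    have hτ : τ = 1 / 3 - ε := by rw [hε]; ring
    obtain ⟨x, hx⟩ : ∃ x : ℝ, x = a + (d : ℝ) * (1 + τ) := ⟨_, rfl⟩
    obtain ⟨j, hj0, hj1, hj2⟩ := exists_j (show 9 < 3 * (n : ℝ) - 3 * ε by linarith) (k := k)
      (x := x) (by rw [hx]; linarith)
    refine ⟨j, hj0, by rw [hx] at hj1; linarith, ?_⟩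
    have hj0R : (0 : ℝ) ≤ j := by exact_mod_cast hj0
    have hx2 : x < (3 * n - 3 * ε) * k + (n : ℝ) ^ 2 * ((m : ℝ) - k) := by
      rw [hx]
      push_cast at ha2
      linarith
    have hdR : (d : ℝ) + 3 = n * (m + 1) := by exact_mod_cast h
    -- `X0 = 3 a + 4 d`
    have hX : 3 * x = ((3 * a + 4 * d : ℤ) : ℝ) - 3 * ε * d := by
      rw [hx, hτ]; push_cast; ring
    have g1 : 3 * a + 4 * d ≤ 9 * n * (k + j + 1) := by
      have h1 : ((3 * a + 4 * d : ℤ) : ℝ) < ((9 * n * (k + j + 1) + 1 : ℤ) : ℝ) := by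
        have : ((9 * n * (k + j + 1) + 1 : ℤ) : ℝ) = 9 * n * (k + j + 1) + 1 := by push_cast; ring
        rw [this]
        have h2 : 0 ≤ ε * (k + j + 1) := by positivity
        nlinarith
      have h3 : 3 * a + 4 * (d : ℤ) < 9 * n * (k + j + 1) + 1 := by exact_mod_cast h1
      omega
    have g2 : 3 * a + 4 * d ≤ 9 * n * k + 3 * (n : ℤ) ^ 2 * (m - k) := by
      have h1 : ((3 * a + 4 * d : ℤ) : ℝ) < ((9 * n * k + 3 * (n : ℤ) ^ 2 * (m - k) + 1 : ℤ) : ℝ) := by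
        have : ((9 * n * k + 3 * (n : ℤ) ^ 2 * (m - k) + 1 : ℤ) : ℝ) =
          9 * n * k + 3 * (n : ℝ) ^ 2 * (m - k) + 1 := by push_cast; ring
        rw [this]
        have h2 : 0 ≤ ε * k := by positivity
        nlinarith
      have h3 : 3 * a + 4 * (d : ℤ) < 9 * n * k + 3 * (n : ℤ) ^ 2 * (m - k) + 1 := by exact_mod_cast h1
      omega
    have g3 : 3 * a + 4 * d ≤ 9 * d + 9 * ((n : ℤ) - 3) * j := by
      have hn0 : (0 : ℤ) < n := by omega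
      have hn3 : (0 : ℤ) ≤ (n : ℤ) - 3 := by omega
      have hdZ : (d : ℤ) = n * (m + 1) - 3 := by
        have : (d : ℤ) + 3 = n * (m + 1) := by exact_mod_cast h
        linarith
      have h1 := mul_le_mul_of_nonneg_left g1 hn3
      have h2 : (n : ℤ) * (3 * a + 4 * d) ≤ n * (9 * d + 9 * ((n : ℤ) - 3) * j) := by
        have e1 : (n : ℤ) * (9 * d + 9 * ((n : ℤ) - 3) * j) =
            ((n : ℤ) - 3) * (9 * n * (k + j + 1)) + 3 * (9 * n * k + 3 * (n : ℤ) ^ 2 * (m - k)) := by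
          rw [hdZ]; ring
        rw [e1]
        linarith
      exact le_of_mul_le_mul_left h2 hn0
    have g4 : 3 * (j : ℝ) ≤ d := by
      by_contra hcon
      have h1 : (d : ℝ) < 3 * j := not_le.1 hcon
      have h2 : (d : ℤ) < 3 * j := by exact_mod_cast h1
      have h3 : (d : ℝ) + 1 ≤ 3 * j := by exact_mod_cast h2
      have h4 : ((n : ℝ) - ε) * (d + 1) ≤ (n - ε) * (3 * j) :=
        mul_le_mul_of_nonneg_left h3 (by linarith)
      have h5 : (n - ε) * (3 * (j : ℝ)) ≤ (n : ℝ) ^ 2 * (m - k) := by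
        nlinarith
      have h6 : (n : ℝ) ^ 2 * (m - k) ≤ n ^ 2 * m := by
        apply mul_le_mul_of_nonneg_left _ (by positivity)
        linarith
      have h7 : (n : ℝ) ^ 2 * m = n * (d + 3 - n) := by rw [hdR]; ring
      nlinarith
    have g3R : 3 * (a : ℝ) + 4 * d ≤ 9 * d + 9 * ((n : ℝ) - 3) * j := by exact_mod_cast g3
    have g5 : 0 ≤ ε * (d - 3 * j) := mul_nonneg hε0.le (by linarith)
    rw [hτ]
    nlinarith

/-- the conditions' worth of points -/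
noncomputable def ff (A s : ℝ) (q : ℕ × ℕ) : ℤ × ℤ := (⌈A + s * q.2⌉ + q.1, q.2)

theorem ff_inj (A s : ℝ) : Function.Injective (ff A s) := by
  rintro ⟨i, l⟩ ⟨i', l'⟩ h
  simp only [ff, Prod.mk.injEq] at h
  obtain ⟨h1, h2⟩ := h
  have h3 : l = l' := by exact_mod_cast h2
  subst h3
  ext
  · simp only; omega
  · rfl

theorem exists_W {r m d : ℕ} {s τ : ℝ} (hs : 9 < s) (hsr : s ≤ r) (hR : Rows r m d s τ) :
    ∃ W : Finset (ℤ × ℤ), W.card = r * (m + 1).choose 2 ∧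
      (∀ q ∈ W, q ∈ FlS (Sh d s τ)) ∧ (∀ q ∈ W, 0 ≤ q.2) ∧
      ∀ (k : ℕ), ∀ q ∈ W, ∀ q' ∈ W, (k : ℤ) ≤ q.2 → (k : ℤ) ≤ q'.2 →
        q'.1 - q.1 < ((r * (m - k) : ℕ) : ℤ) := by
  classical
  obtain ⟨A, hA⟩ : ∃ A : ℝ, A = -((d : ℝ) * (1 + τ)) := ⟨_, rfl⟩
  refine ⟨(EE r m).image (ff A s), ?_, ?_, ?_, ?_⟩
  · rw [Finset.card_image_of_injective _ (ff_inj A s), card_EE_eq']
  · intro q hq
    rw [Finset.mem_image] at hq
    obtain ⟨⟨i, l⟩, hil, rfl⟩ := hq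
    rw [mem_EE] at hil
    obtain ⟨hl, hi⟩ := hil
    have h1 : A + s * l ≤ ((⌈A + s * l⌉ + i : ℤ) : ℝ) := by
      push_cast
      have := Int.le_ceil (A + s * l)
      have : (0 : ℝ) ≤ i := Nat.cast_nonneg i
      linarith
    have h2 : ((⌈A + s * l⌉ + i : ℤ) : ℝ) < A + s * l + r * ((m : ℝ) - l) := by
      have h3 := Int.ceil_lt_add_one (A + s * l)
      have h4 : (i : ℝ) + 1 ≤ r * ((m : ℝ) - l) := by
        have h5 : ((i + 1 : ℕ) : ℝ) ≤ ((r * (m - l) : ℕ) : ℝ) := by exact_mod_cast hi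
        push_cast [Nat.cast_sub hl.le] at h5
        exact h5
      push_cast
      linarith
    rw [hA] at h1 h2
    obtain ⟨j, hj0, hj1, hj2⟩ := hR l hl _ h1 h2
    have hl0 : (0 : ℝ) ≤ l := Nat.cast_nonneg l
    have hj0R : (0 : ℝ) ≤ j := by exact_mod_cast hj0
    have hsl : 0 ≤ s * l := mul_nonneg (by linarith) hl0
    have hsl' : 0 ≤ (s - 9) * l := mul_nonneg (by linarith) hl0
    show ff A s (i, l) ∈ FlS (Sh d s τ)
    unfold ff
    rw [hA]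
    refine ⟨by simp, j, ⟨hj0, ?_, ?_⟩, ⟨?_, ?_, ?_⟩⟩
    · simp only
      linarith
    · simp only
      linarith
    · simp only
      omega
    · simp only
      push_cast at hj1 ⊢
      linarith
    · simp only
      push_cast at hj2 ⊢
      linarith
  · intro q hq
    rw [Finset.mem_image] at hq
    obtain ⟨⟨i, l⟩, hil, rfl⟩ := hq
    simp [ff]
  · intro k q hq q' hq' hk hk'
    rw [Finset.mem_image] at hq hq'
    obtain ⟨⟨i, l⟩, hil, rfl⟩ := hq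
    obtain ⟨⟨i', l'⟩, hil', rfl⟩ := hq'
    rw [mem_EE] at hil hil'
    simp only [ff] at hk hk' ⊢
    have hkl : k ≤ l := by exact_mod_cast hk
    have hkl' : k ≤ l' := by exact_mod_cast hk'
    have hkR : (k : ℝ) ≤ l := by exact_mod_cast hkl
    have hkR' : (k : ℝ) ≤ l' := by exact_mod_cast hkl'
    have h1 : ⌈A + s * k⌉ ≤ ⌈A + s * l⌉ := by
      apply Int.ceil_mono
      have : s * k ≤ s * l := mul_le_mul_of_nonneg_left hkR (by linarith)
      linarith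
    have h2 : ⌈A + s * l'⌉ ≤ ⌈A + s * k⌉ + ((r * (l' - k) : ℕ) : ℤ) := by
      rw [Int.ceil_le]
      push_cast [Nat.cast_sub hkl']
      have h3 := Int.le_ceil (A + s * k)
      have h4 : s * (l' - k) ≤ r * ((l' : ℝ) - k) :=
        mul_le_mul_of_nonneg_right hsr (by linarith)
      linarith
    have h5 : (i' : ℤ) < ((r * (m - l') : ℕ) : ℤ) := by exact_mod_cast hil'.2
    have h6 : ((r * (m - l') : ℕ) : ℤ) + ((r * (l' - k) : ℕ) : ℤ) = ((r * (m - k) : ℕ) : ℤ) := by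
      rw [← Nat.cast_add, ← Nat.mul_add]
      congr 2
      have := hil'.1
      omega
    have h7 : (0 : ℤ) ≤ i := Int.natCast_nonneg i
    linarith

end Pool.Agent.TH518.CW
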