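import Pool.Agent.TH518.CW.GeomG
import Pool.Agent.TH98.CF.Final

/-! Two flattenings: eleven and thirteen points. -/

set_option autoImplicit false

namespace Pool.Agent.TH518.CW

open Pool.Agent.TH716.CF

/-- the parameters of the two flattenings -/
structure Num (q v n : ℕ) (K : ℝ) : Prop where
  hK : 9 < K
  hK2 : K < 12
  hqv : q * v = 2
  eq1 : (q : ℝ) * (K * (K - 9)) = 9
  eq2 : (q : ℝ) * (K + v) ^ 2 = n * (q * (K + v) - 1)
  irr : Irrational K

/-- the set after the first flattening, in the coordinates column and height -/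
def GG (q : ℕ) (K : ℝ) (d : ℕ) : Set (ℤ × ℤ) :=
  {m | 0 ≤ m.2 ∧ (m.1 : ℝ) + K * m.2 ≤ K * d / 3 ∧
    ((1 ≤ m.1 ∧ m.2 + 1 ≤ q * m.1) ∨ (3 ∣ d ∧ m.1 = 0 ∧ m.2 = 0))}

theorem fl_eq {q v n : ℕ} {K : ℝ} (h : Num q v n K) {d : ℕ} (a k : ℤ) :
    ((a, k) : ℤ × ℤ) ∈ FlS (Sh d K (K / 3 - 3)) ↔ ((2 * (d : ℤ) - a, k) : ℤ × ℤ) ∈ GG q K d := by
  have hK := h.hK
  have hK9 : 0 < K - 9 := by linarith
  have hq0 : (0 : ℝ) < q := by
    have h1 := h.hqv
    have : 0 < q := by
      rcases Nat.eq_zero_or_pos q with h2 | h2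
      · rw [h2] at h1; omega
      · exact h2
    exact_mod_cast this
  constructor
  · rintro ⟨hk, b, ⟨g1, g2, g3⟩, ⟨g4, g5, g6⟩⟩
    simp only at hk g1 g2 g3 g4 g5 g6
    obtain ⟨t, ht⟩ : ∃ t : ℤ, t = 2 * d - a := ⟨_, rfl⟩
    have htR : (t : ℝ) = 2 * d - a := by rw [ht]; push_cast; ring
    obtain ⟨u, hu⟩ : ∃ u : ℝ, u = (d : ℝ) / 3 - b := ⟨_, rfl⟩
    have hkR : (0 : ℝ) ≤ k := by exact_mod_cast hk
    have hbR : (0 : ℝ) ≤ b := by exact_mod_cast g1
    push_cast at g5 g6
    have e1 : (K - 9) * u ≤ t := by rw [hu, htR]; linarith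
    have e2 : (t : ℝ) ≤ K * (u - k) := by rw [hu, htR]; linarith
    have e3 : (t : ℝ) ≤ K * u := by nlinarith
    have hu0 : 0 ≤ u := by nlinarith
    have ht0 : (0 : ℝ) ≤ t := by nlinarith
    have hkt : (k : ℝ) ≤ q * t := by
      -- `9 k <= 9 u - 9 t / K`, `9 u <= q K t`
      have f1 : q * K * ((K - 9) * u) ≤ q * K * t := mul_le_mul_of_nonneg_left e1 (by positivity)
      have f2 : q * K * ((K - 9) * u) = 9 * u := by
        have := h.eq1
        calc q * K * ((K - 9) * u) = (q * (K * (K - 9))) * u := by ring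
          _ = 9 * u := by rw [this]
      have f3 : q * (K - 9) * t ≤ q * (K - 9) * (K * (u - k)) :=
        mul_le_mul_of_nonneg_left e2 (by positivity)
      have f4 : q * (K - 9) * (K * (u - k)) = 9 * (u - k) := by
        have := h.eq1
        calc q * (K - 9) * (K * (u - k)) = (q * (K * (K - 9))) * (u - k) := by ring
          _ = 9 * (u - k) := by rw [this]
      have f5 : q * K * t - q * (K - 9) * t = 9 * (q * t) := by ring
      linarith
    show ((2 * (d : ℤ) - a, k) : ℤ × ℤ) ∈ GG q K d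
    rw [← ht]
    refine ⟨hk, ?_, ?_⟩
    · simp only
      have : K * b ≥ 0 := by positivity
      have e4 : K * (u - k) = K * d / 3 - K * b - K * k := by rw [hu]; ring
      linarith
    · simp only
      by_cases ht1 : t = 0
      · right
        rw [ht1] at e1 hkt
        simp only [Int.cast_zero, mul_zero] at e1 hkt
        have hu1 : u = 0 := by nlinarith
        have hk1 : k = 0 := by
          have : k ≤ 0 := by exact_mod_cast hkt
          omega
        refine ⟨?_, ht1, hk1⟩
        rw [hu] at hu1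
        have h3 : (d : ℝ) = ((3 * b : ℤ) : ℝ) := by push_cast; linarith
        have h4 : (d : ℤ) = 3 * b := by exact_mod_cast h3
        omega
      · left
        have ht2 : 0 ≤ t := by exact_mod_cast ht0
        refine ⟨by omega, ?_⟩
        have h5 : k ≤ q * t := by exact_mod_cast hkt
        by_contra hcon
        have h6 : k = q * t := by omega
        -- then `t = (K - 9) u`
        have h7 : (k : ℝ) = q * t := by exact_mod_cast h6
        have f1 : q * K * t = 9 * u := by
          apply le_antisymm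
          · have f3 : q * (K - 9) * t ≤ q * (K - 9) * (K * (u - k)) :=
              mul_le_mul_of_nonneg_left e2 (by positivity)
            have f4 : q * (K - 9) * (K * (u - k)) = 9 * (u - k) := by
              have := h.eq1
              calc q * (K - 9) * (K * (u - k)) = (q * (K * (K - 9))) * (u - k) := by ring
                _ = 9 * (u - k) := by rw [this]
            rw [f4, h7] at f3
            linarith
          · have f1 : q * K * ((K - 9) * u) ≤ q * K * t := mul_le_mul_of_nonneg_left e1 (by positivity)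
            have f2 : q * K * ((K - 9) * u) = 9 * u := by
              have := h.eq1
              calc q * K * ((K - 9) * u) = (q * (K * (K - 9))) * u := by ring
                _ = 9 * u := by rw [this]
            linarith
        have h8 : ((q * t : ℤ) : ℝ) * K = ((3 * d - 9 * b : ℤ) : ℝ) := by
          rw [hu] at f1
          push_cast
          linarith
        have hqt : (q * t : ℤ) ≠ 0 := by
          have : (0 : ℤ) < q := by exact_mod_cast hq0
          exact mul_ne_zero this.ne' ht1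
        have h9 := (h.irr.intCast_mul hqt)
        rw [h8] at h9
        exact Int.not_irrational _ h9
  · rintro ⟨hk, h2, h3⟩
    simp only at hk h2 h3
    obtain ⟨t, ht⟩ : ∃ t : ℤ, t = 2 * d - a := ⟨_, rfl⟩
    have htR : (t : ℝ) = 2 * d - a := by rw [ht]; push_cast; ring
    rw [← ht] at h2 h3
    have hkR : (0 : ℝ) ≤ k := by exact_mod_cast hk
    -- the lowest point of the column segment
    obtain ⟨b, hb0, hb1, hb2⟩ : ∃ b : ℤ, 0 ≤ b ∧ (K - 9) * ((d : ℝ) / 3 - b) ≤ t ∧
        (t : ℝ) ≤ K * ((d : ℝ) / 3 - b - k) := by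
      rcases h3 with ⟨h3, h4⟩ | ⟨h3, h4, h5⟩
      · have h4R : (k : ℝ) + 1 ≤ q * t := by exact_mod_cast h4
        have h3R : (1 : ℝ) ≤ t := by exact_mod_cast h3
        have e1 : t / K = q * (K - 9) * t / 9 := by
          rw [div_eq_div_iff (by linarith) (by norm_num)]
          have := h.eq1
          calc (t : ℝ) * 9 = t * (q * (K * (K - 9))) := by rw [this]
            _ = q * (K - 9) * t * K := by ring
        refine ⟨⌊(d : ℝ) / 3 - t / K - k⌋, ?_, ?_, ?_⟩
        · apply Int.floor_nonneg.2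
          have : (t : ℝ) / K + k ≤ d / 3 := by
            have h6 : (t : ℝ) + K * k ≤ K * (d / 3) := by linarith
            have h7 : (t : ℝ) / K + k = (t + K * k) / K := by field_simp
            rw [h7, div_le_iff₀ (by linarith)]
            linarith
          linarith
        · have h6 := Int.lt_floor_add_one ((d : ℝ) / 3 - t / K - k)
          have h7 : (d : ℝ) / 3 - (⌊(d : ℝ) / 3 - t / K - k⌋ : ℤ) < t / K + k + 1 := by linarith
          have h8 : t / K + k + 1 ≤ q * K * t / 9 := by
            rw [e1]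
            have : q * K * t / 9 = q * (K - 9) * t / 9 + q * t := by ring
            rw [this]
            linarith
          have h9 : (K - 9) * (q * K * t / 9) = t := by
            have := h.eq1
            calc (K - 9) * (q * K * t / 9) = (q * (K * (K - 9))) * t / 9 := by ring
              _ = t := by rw [this]; ring
          have h10 := mul_le_mul_of_nonneg_left (show (d : ℝ) / 3 -
            (⌊(d : ℝ) / 3 - t / K - k⌋ : ℤ) ≤ q * K * t / 9 by linarith) hK9.le
          rw [h9] at h10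
          exact h10
        · have h6 := Int.floor_le ((d : ℝ) / 3 - t / K - k)
          have h7 : (t : ℝ) / K ≤ d / 3 - (⌊(d : ℝ) / 3 - t / K - k⌋ : ℤ) - k := by linarith
          rw [div_le_iff₀ (by linarith)] at h7
          linarith
      · obtain ⟨e, he⟩ := h3
        refine ⟨e, by positivity, ?_, ?_⟩
        · rw [h4, he]
          push_cast
          have : (3 : ℝ) * e / 3 - e = 0 := by ring
          rw [this, mul_zero]
        · rw [h4, h5, he]
          push_cast
          have : (3 : ℝ) * e / 3 - e - 0 = 0 := by ring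
          rw [this, mul_zero]
    have hbR : (0 : ℝ) ≤ b := by exact_mod_cast hb0
    refine ⟨hk, b, ⟨hb0, ?_, ?_⟩, ⟨by simp only; omega, ?_, ?_⟩⟩
    · simp only
      have : K * k ≥ 0 := by positivity
      have e5 : K * ((d : ℝ) / 3 - b - k) = K * d / 3 - K * b - K * k := by ring
      linarith
    · simp only
      have e5 : (K - 9) * ((d : ℝ) / 3 - b) = K * d / 3 - 3 * d - (K - 9) * b := by ring
      linarith
    · simp only
      push_cast
      have e5 : K * ((d : ℝ) / 3 - b - k) = K * d / 3 - K * b - K * k := by ring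
      linarith
    · simp only
      push_cast
      have e5 : (K - 9) * ((d : ℝ) / 3 - b) = K * d / 3 - 3 * d - (K - 9) * b := by ring
      have : (K - 9) * k ≥ 0 := by positivity
      linarith

/-- the sheared set -/
def HH (q v : ℕ) (K : ℝ) (d : ℕ) : Set (ℤ × ℤ) :=
  {m | ((2 * (d : ℤ) - m.1 + v * m.2, m.2) : ℤ × ℤ) ∈ GG q K d}

theorem hh_conv {q v n : ℕ} {K : ℝ} (h : Num q v n K) {d : ℕ} (a b T k : ℤ)
    (h1 : ((a, b) : ℤ × ℤ) ∈ HH q v K d) (h2 : ((a, b + T) : ℤ × ℤ) ∈ HH q v K d) (hk : 0 ≤ k)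
    (hkT : k ≤ T) : ((a, b + k) : ℤ × ℤ) ∈ HH q v K d := by
  have hqv : (q : ℤ) * v = 2 := by exact_mod_cast h.hqv
  have hv : (1 : ℤ) ≤ v := by
    have h3 := h.hqv
    have : 0 < v := by
      rcases Nat.eq_zero_or_pos v with h2 | h2
      · rw [h2] at h3; omega
      · exact h2
    omega
  have hvR : (1 : ℝ) ≤ v := by exact_mod_cast hv
  rcases eq_or_lt_of_le hk with hk0 | hk0
  · rw [← hk0, add_zero]; exact h1
  obtain ⟨g1, g2, g3⟩ := h1
  obtain ⟨g4, g5, g6⟩ := h2
  simp only at g1 g2 g3 g4 g5 g6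
  have hK := h.hK
  refine ⟨by simp only; omega, ?_, Or.inl ?_⟩
  · simp only
    push_cast at g5 ⊢
    have hkT' : (k : ℝ) ≤ T := by exact_mod_cast hkT
    have : (v + K) * k ≤ (v + K) * T := mul_le_mul_of_nonneg_left hkT' (by linarith)
    linarith
  · simp only
    rcases g3 with ⟨g7, g8⟩ | ⟨g7, g8, g9⟩
    · have e1 : (q : ℤ) * (2 * d - a + v * (b + k)) = q * (2 * d - a + v * b) + (q * v) * k := by
        ring
      rw [e1, hqv]
      have e2 : 2 * (d : ℤ) - a + v * (b + k) = (2 * d - a + v * b) + v * k := by ring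
      rw [e2]
      have : 0 ≤ (v : ℤ) * k := by positivity
      omega
    · have e1 : (q : ℤ) * (2 * d - a + v * (b + k)) = q * (2 * d - a + v * b) + (q * v) * k := by
        ring
      rw [e1, hqv, g8]
      have e2 : 2 * (d : ℤ) - a + v * (b + k) = (2 * d - a + v * b) + v * k := by ring
      rw [e2, g8]
      have : k ≤ (v : ℤ) * k := by nlinarith
      omega

theorem num_tau {q v n : ℕ} {K : ℝ} (h : Num q v n K) :
    0 < K / 3 - 3 ∧ K / 3 - 3 < 1 ∧ Irrational (K / 3 - 3) := by
  refine ⟨by linarith [h.hK], by linarith [h.hK2], ?_⟩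
  have h1 : K / 3 - 3 = K / ((3 : ℕ) : ℝ) - ((3 : ℕ) : ℝ) := by norm_num
  rw [h1]
  exact (h.irr.div_natCast (by norm_num)).sub_natCast 3

/-- the chain of the two flattenings -/
theorem chain2 {p : ℕ} {ι : Type} {r w : ι → ℕ} {q v n : ℕ} {K : ℝ} (h : Num q v n K) {d : ℕ}
    (hE : EmpG p r w (FlS (HH q v K d))) : EmpG p r w (Tri d (K / 3 - 3)) := by
  refine tri_of_fl (s := K) (c := 6) (by push_cast; ring) ?_
  have e1 : EmpG p r w (HH q v K d) := by
    refine hE.flat0 ?_
    intro a b T k h1 h2 hk hkT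
    exact ⟨hk, b, h1, hh_conv h a b T k h1 h2 hk hkT⟩
  refine e1.shear (v : ℤ) ?_
  rintro ⟨a, k⟩ hm
  have h1 := (fl_eq h a k).1 hm
  show ((2 * (d : ℤ) - (a + v * k) + v * k, k) : ℤ × ℤ) ∈ GG q K d
  have e2 : 2 * (d : ℤ) - (a + v * k) + v * k = 2 * d - a := by ring
  rw [e2]
  exact h1

theorem hh_card {q v n : ℕ} {K : ℝ} (h : Num q v n K) {d : ℕ} :
    (FlS (HH q v K d)).Finite ∧ (FlS (HH q v K d)).ncard ≤ (d + 2).choose 2 := by
  obtain ⟨h1, h2⟩ := fl_sh_card (d := d) (s := K) (τ := K / 3 - 3) (c := 6) (by push_cast; ring)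
    (num_tau h).2.2
  have hmaps : ∀ m ∈ HH q v K d, ((m.1 - v * m.2, m.2) : ℤ × ℤ) ∈ FlS (Sh d K (K / 3 - 3)) := by
    rintro ⟨a, k⟩ hm
    refine (fl_eq h _ k).2 ?_
    have e2 : 2 * (d : ℤ) - (a - v * k) = 2 * d - a + v * k := by ring
    rw [e2]
    exact hm
  have hinj : Set.InjOn (fun m : ℤ × ℤ => ((m.1 - v * m.2, m.2) : ℤ × ℤ)) (HH q v K d) := by
    rintro ⟨a, k⟩ _ ⟨a', k'⟩ _ he
    simp only [Prod.mk.injEq] at he
    obtain ⟨he, rfl⟩ := he
    ext
    · simp only; omega
    · rfl
  have hfin : (HH q v K d).Finite := Set.Finite.of_injOn hmaps hinj h1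
  have hcard := Set.ncard_le_ncard_of_injOn _ hmaps hinj h1
  obtain ⟨h3, h4⟩ := fl_card hfin (fun m hm => hm.1) (fun a b T k => hh_conv h a b T k)
  exact ⟨h3, h4.trans (hcard.trans h2)⟩

end Pool.Agent.TH518.CW
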