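import Pool.Agent.TH518.CW.TwoP

/-! Eleven and thirteen points: degrees divisible by three, the apex is absorbed. -/

set_option autoImplicit false

namespace Pool.Agent.TH518.CW

open MvPolynomial Pool.Agent.TH716.CF Pool.Agent.H932R5 Pool.Agent.TH545.CF

universe u

section
variable {q v n : ℕ} {K σ : ℝ}

/-- the points of the flattened set -/
theorem mem_end' (h : Num2 q v n K σ) {d : ℕ} {a g : ℤ}
    (hm : ((a, g) : ℤ × ℤ) ∈ FlS (HH q v K d)) :
    ((2 * d - a : ℤ) : ℝ) ≤ yy v K d g ∧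
      (((a - 2 * d : ℤ) : ℝ) ≤ zz q v K d g ∨ (3 ∣ d ∧ a = 2 * d)) := by
  by_cases hd : 3 ∣ d
  swap
  · obtain ⟨h1, h2⟩ := mem_end h hd hm
    exact ⟨h1, Or.inl h2⟩
  obtain ⟨hg, b, ⟨g1, g2, g3⟩, ⟨g4, g5, g6⟩⟩ := hm
  simp only at hg g1 g2 g3 g4 g5 g6
  have hK := h.num.hK
  have h3 : (0 : ℝ) ≤ v := Nat.cast_nonneg v
  have hbR : (0 : ℝ) ≤ b := by exact_mod_cast g1
  push_cast at g5
  refine ⟨?_, ?_⟩
  · unfold yy
    push_cast
    have : (K + v) * b ≥ 0 := mul_nonneg (by linarith) hbR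
    linarith
  · have hqv : (q : ℤ) * v = 2 := by exact_mod_cast h.num.hqv
    rcases g3 with ⟨_, g8⟩ | ⟨_, g8, g9⟩
    · left
      have hb : (q : ℤ) * (2 * d - a) + b ≥ 1 := by
        have e1 : (q : ℤ) * (2 * d - a + v * b) = q * (2 * d - a) + (q * v) * b := by ring
        rw [e1, hqv] at g8
        omega
      have hbR2 : (1 : ℝ) ≤ q * (2 * d - a) + b := by exact_mod_cast hb
      unfold zz
      rw [le_div_iff₀ h.den]
      unfold yy
      push_cast
      have := mul_le_mul_of_nonneg_left hbR2 (show 0 ≤ K + v by linarith)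
      linarith
    · right
      refine ⟨hd, ?_⟩
      rw [g9, mul_zero, add_zero] at g8
      omega

/-- emptiness of the flattened set; the apex is absorbed -/
theorem emp_two' (h : Num2 q v n K σ) {p : ℕ} (hp : p = 0 ∨ p.Prime) {ι : Type} [Fintype ι]
    {r w : ι → ℕ} {d : ℕ} (hr : ∑ i, r i = n)
    (hA : ¬ 3 ∣ d ∨ ∀ k : ℕ, 0 ≤ yy v K d k → yy v K d k < K + v →
      yy v K d k < ∑ i, ((r i * (w i - k) : ℕ) : ℝ))
    (hT : σ * d - (n - 3 * σ) / 2 < ∑ i, (r i : ℝ) * w i) :
    EmpG p r w (FlS (HH q v K d)) := by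
  refine Pool.Agent.TH98.CF.EmpG_rows hp (fun m hm => hm.1) ?_
  rintro k ⟨a, g⟩ hm ⟨a', g'⟩ hm' hk hk'
  simp only at hk hk' ⊢
  obtain ⟨h0, h2⟩ := mem_end' h hm'
  obtain ⟨h1, _⟩ := mem_end' h hm
  have hkR : (k : ℝ) ≤ g := by exact_mod_cast hk
  have hkR' : (k : ℝ) ≤ g' := by exact_mod_cast hk'
  have h3 := h1.trans (yy_anti h (d := d) hkR)
  have h5 := h.sum d k
  have hrR : (∑ i, (r i : ℝ)) = n := by exact_mod_cast hr
  have h6 : (∑ i, (r i : ℝ) * w i) - n * k ≤ ∑ i, ((r i * (w i - k) : ℕ) : ℝ) := by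
    rw [← hrR, Finset.sum_mul, ← Finset.sum_sub_distrib]
    refine Finset.sum_le_sum fun i _ => ?_
    rw [← mul_sub, Nat.cast_mul]
    refine mul_le_mul_of_nonneg_left ?_ (Nat.cast_nonneg _)
    have : ((w i : ℤ) - k : ℤ) ≤ ((w i - k : ℕ) : ℤ) := by omega
    exact_mod_cast this
  have h7 : ((a' - a : ℤ) : ℝ) < ((∑ i, ((r i * (w i - k) : ℕ) : ℤ) : ℤ) : ℝ) := by
    rw [Int.cast_sum]
    simp only [Int.cast_natCast]
    rcases h2 with h2 | ⟨hd, rfl⟩
    · have h4 := h2.trans (zz_anti h (d := d) hkR')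
      push_cast at h3 h4 ⊢
      push_cast at h6
      linarith
    · rcases hA with hA | hA
      · exact absurd hd hA
      · have h8 : 0 ≤ yy v K d k := by
          refine le_trans ?_ (h0.trans (yy_anti h (d := d) hkR'))
          push_cast
          linarith
        rcases lt_or_ge (yy v K d k) (K + v) with h9 | h9
        · have := hA k h8 h9
          push_cast at h3 ⊢
          push_cast at this
          linarith
        · have h10 : 0 ≤ zz q v K d k := div_nonneg (by linarith) h.den.le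
          push_cast at h3 ⊢
          push_cast at h6
          linarith
  exact_mod_cast h7

/-- the height of the apex -/
theorem Num2.yy_eq (h : Num2 q v n K σ) (d : ℕ) (l : ℝ) :
    yy v K d l = (3 + σ) / 2 * (d - σ * l) := by
  have h1 := h.sg
  have hL : K + v = (3 * σ + n) / 2 := by linarith [h.kk, h.vv]
  have hK : K = (9 + 3 * σ) / 2 := by linarith [h.kk]
  unfold yy
  rw [hL, hK, ← h1]
  ring

theorem emp_two_points' (h : Num2 q v n K σ) {k : Type u} [Field k]
    {P : Fin n → Fin 2 → k}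
    (hP : AlgebraicIndependent (⊥ : Subfield k) (fun q : Fin n × Fin 2 => P q.1 q.2))
    {w : Fin n → ℕ} {d : ℕ} (hd : ¬ 3 ∣ d ∨ (3 + σ) / 2 * (d - σ * (⌊(d : ℝ) / σ⌋₊ : ℕ)) <
      ∑ i, ((w i - ⌊(d : ℝ) / σ⌋₊ : ℕ) : ℝ)) {F : MvPolynomial (Fin 3) k}
    (hF : F.IsHomogeneous d) (hne : F ≠ 0)
    (hi : ∀ i, F ∈ (Ideal.span {X 1 - C (P i 0) * X 0, X 2 - C (P i 1) * X 0} :
      Ideal (MvPolynomial (Fin 3) k)) ^ (w i)) :
    ∑ i, (w i : ℝ) ≤ σ * d - (n - 3 * σ) / 2 := by
  by_contra hcon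
  rw [not_le] at hcon
  obtain ⟨p, hp⟩ := CharP.exists k
  have hp' : p = 0 ∨ p.Prime := (CharP.char_is_prime_or_zero k p).symm
  have hσ : 0 < σ := by linarith [h.s3]
  have hE := emp_two' h hp' (ι := Fin n) (r := fun _ => 1) (w := w) (d := d) (by simp)
    (by
      rcases hd with hd | hd
      · exact Or.inl hd
      · right
        intro k hk0 hk1
        have e0 : yy v K d k = (3 + σ) / 2 * (d - σ * k) := h.yy_eq d k
        have e1 : K + v = (3 + σ) / 2 * σ := by
          have hL : K + v = (3 * σ + n) / 2 := by linarith [h.kk, h.vv]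
          rw [hL, ← h.sg]
          ring
        rw [e0] at hk0 hk1
        rw [e1] at hk1
        have h1 : 0 ≤ d - σ * k := nonneg_of_mul_nonneg_right hk0 (by linarith)
        have h2 : d - σ * k < σ := lt_of_mul_lt_mul_left hk1 (by linarith)
        have h3 : ⌊(d : ℝ) / σ⌋₊ = k := by
          rw [Nat.floor_eq_iff (by positivity)]
          constructor
          · rw [le_div_iff₀ hσ]
            linarith
          · rw [div_lt_iff₀ hσ]
            linarith
        rw [h3] at hd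
        rw [e0]
        simpa using hd)
    (by simpa using hcon)
  obtain ⟨t0, t1, _⟩ := num_tau h.num
  obtain ⟨K', i1, i2, x, hx⟩ := key_points t0 t1 (chain2 h.num hE)
  have hx' : NoForm x w d := hx
  exact hne (hx'.generic p hP F hF hi)

end

end Pool.Agent.TH518.CW
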