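import Pool.Agent.TH518.CW.Two

/-! Two flattenings: the rows. -/

set_option autoImplicit false

namespace Pool.Agent.TH518.CW

open Pool.Agent.TH716.CF

/-- the parameters, with the square root of the number of points -/
structure Num2 (q v n : ℕ) (K σ : ℝ) : Prop where
  num : Num q v n K
  sg : σ ^ 2 = n
  s3 : 3 < σ
  kk : 2 * K = 9 + 3 * σ
  vv : 2 * (v : ℝ) = n - 9
  q1 : 1 ≤ q

/-- right end of a row -/
noncomputable def yy (v : ℕ) (K : ℝ) (d : ℕ) (l : ℝ) : ℝ := K * d / 3 - (K + v) * l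

/-- left end of a row -/
noncomputable def zz (q v : ℕ) (K : ℝ) (d : ℕ) (l : ℝ) : ℝ :=
  (yy v K d l - (K + v)) / (q * (K + v) - 1)

section
variable {q v n : ℕ} {K σ : ℝ}

theorem Num2.den (h : Num2 q v n K σ) : 0 < (q : ℝ) * (K + v) - 1 := by
  have h1 := h.num.hK
  have h2 : (1 : ℝ) ≤ q := by exact_mod_cast h.q1
  have h3 : (0 : ℝ) ≤ v := Nat.cast_nonneg v
  nlinarith

theorem Num2.qn (h : Num2 q v n K σ) : (q : ℝ) * (n - 9) = 4 := by
  have h1 : (q : ℝ) * v = 2 := by exact_mod_cast h.num.hqv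
  have h2 := h.vv
  rw [← h2]
  linarith

/-- the sum of the two ends -/
theorem Num2.sum (h : Num2 q v n K σ) (d : ℕ) (l : ℝ) :
    yy v K d l + zz q v K d l = σ * d - (n - 3 * σ) / 2 - n * l := by
  have hD := h.den
  have h1 := h.sg
  have h2 := h.qn
  have hL : K + v = (3 * σ + n) / 2 := by linarith [h.kk, h.vv]
  have hKσ : K * σ = 3 * (K + v) := by
    have : K = (9 + 3 * σ) / 2 := by linarith [h.kk]
    rw [hL, this]
    linear_combination (3 / 2) * h1
  have e2 : (q : ℝ) * (K + v) ^ 2 = n * (q * (K + v) - 1) := h.num.eq2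
  have hσ : 0 < σ := by linarith [h.s3]
  have e3 : ((q : ℝ) * (K + v) - 1) * σ * σ = q * (K + v) * (K + v) := by
    calc ((q : ℝ) * (K + v) - 1) * σ * σ = (q * (K + v) - 1) * σ ^ 2 := by ring
      _ = n * (q * (K + v) - 1) := by rw [h1]; ring
      _ = q * (K + v) ^ 2 := e2.symm
      _ = q * (K + v) * (K + v) := by ring
  have e4 : ((q : ℝ) * (K + v) - 1) * σ = q * (K + v) * (K / 3) := by
    apply mul_right_cancel₀ hσ.ne'
    rw [e3]
    linear_combination (-(q : ℝ) * (K + v) / 3) * hKσ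
  have e5 : ((q : ℝ) * (K + v) - 1) * ((n - 3 * σ) / 2) = K + v := by
    rw [hL]
    have e6 : (n : ℝ) ^ 2 = n * n := by ring
    have e7 : (3 * σ + n) * (n - 3 * σ) = (n : ℝ) * (n - 9) := by linear_combination (-9) * h1
    linear_combination ((q : ℝ) / 4) * e7 + (n : ℝ) / 4 * h2
  apply mul_left_cancel₀ hD.ne'
  have e8 : ((q : ℝ) * (K + v) - 1) * zz q v K d l = yy v K d l - (K + v) := by
    unfold zz
    field_simp
  rw [mul_add, e8]
  unfold yy
  linear_combination (-(d : ℝ)) * e4 + e5 - l * e2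

theorem yy_anti (h : Num2 q v n K σ) {d : ℕ} {k l : ℝ} (hkl : k ≤ l) : yy v K d l ≤ yy v K d k := by
  unfold yy
  have h1 := h.num.hK
  have h3 : (0 : ℝ) ≤ v := Nat.cast_nonneg v
  have : (K + v) * k ≤ (K + v) * l := mul_le_mul_of_nonneg_left hkl (by linarith)
  linarith

theorem zz_anti (h : Num2 q v n K σ) {d : ℕ} {k l : ℝ} (hkl : k ≤ l) :
    zz q v K d l ≤ zz q v K d k := by
  unfold zz
  exact div_le_div_of_nonneg_right (by linarith [yy_anti h (d := d) hkl]) h.den.le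

theorem zz_step (h : Num2 q v n K σ) {d : ℕ} {k l : ℝ} (hkl : k ≤ l) :
    zz q v K d k ≤ zz q v K d l + 2 * (l - k) := by
  have hD := h.den
  unfold zz
  rw [div_add' _ _ _ hD.ne', div_le_div_iff_of_pos_right hD]
  unfold yy
  have h1 := h.num.hK
  have h3 : (0 : ℝ) ≤ v := Nat.cast_nonneg v
  have h2 : (1 : ℝ) ≤ q := by exact_mod_cast h.q1
  have h4 : (K + v) ≤ 2 * (q * (K + v) - 1) := by nlinarith
  have h5 := mul_le_mul_of_nonneg_right h4 (show 0 ≤ l - k by linarith)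
  linarith

/-- the points of the flattened set, when three does not divide the degree -/
theorem mem_end (h : Num2 q v n K σ) {d : ℕ} (hd : ¬ 3 ∣ d) {a g : ℤ}
    (hm : ((a, g) : ℤ × ℤ) ∈ FlS (HH q v K d)) :
    ((2 * d - a : ℤ) : ℝ) ≤ yy v K d g ∧ ((a - 2 * d : ℤ) : ℝ) ≤ zz q v K d g := by
  obtain ⟨hg, b, ⟨g1, g2, g3⟩, ⟨g4, g5, g6⟩⟩ := hm
  simp only at hg g1 g2 g3 g4 g5 g6
  have hK := h.num.hK
  have h3 : (0 : ℝ) ≤ v := Nat.cast_nonneg v
  have hbR : (0 : ℝ) ≤ b := by exact_mod_cast g1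
  push_cast at g5
  refine ⟨?_, ?_⟩
  · unfold yy
    push_cast
    have : (K + v) * b ≥ 0 := mul_nonneg (by linarith) hbR
    linarith
  · have hqv : (q : ℤ) * v = 2 := by exact_mod_cast h.num.hqv
    have hb : (q : ℤ) * (2 * d - a) + b ≥ 1 := by
      rcases g3 with ⟨_, g8⟩ | ⟨g7, _, _⟩
      · have e1 : (q : ℤ) * (2 * d - a + v * b) = q * (2 * d - a) + (q * v) * b := by ring
        rw [e1, hqv] at g8
        omega
      · exact absurd g7 hd
    have hbR2 : (1 : ℝ) ≤ q * (2 * d - a) + b := by exact_mod_cast hb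
    unfold zz
    rw [le_div_iff₀ h.den]
    unfold yy
    push_cast
    have := mul_le_mul_of_nonneg_left hbR2 (show 0 ≤ K + v by linarith)
    linarith

/-- emptiness of the flattened set -/
theorem emp_two (h : Num2 q v n K σ) {p : ℕ} (hp : p = 0 ∨ p.Prime) {ι : Type} [Fintype ι]
    {r w : ι → ℕ} {d : ℕ} (hd : ¬ 3 ∣ d) (hr : ∑ i, r i = n)
    (hT : σ * d - (n - 3 * σ) / 2 < ∑ i, (r i : ℝ) * w i) :
    EmpG p r w (FlS (HH q v K d)) := by
  refine Pool.Agent.TH98.CF.EmpG_rows hp (fun m hm => hm.1) ?_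
  rintro k ⟨a, g⟩ hm ⟨a', g'⟩ hm' hk hk'
  simp only at hk hk' ⊢
  obtain ⟨_, h2⟩ := mem_end h hd hm'
  obtain ⟨h1, _⟩ := mem_end h hd hm
  have hkR : (k : ℝ) ≤ g := by exact_mod_cast hk
  have hkR' : (k : ℝ) ≤ g' := by exact_mod_cast hk'
  have h3 := h1.trans (yy_anti h (d := d) hkR)
  have h4 := h2.trans (zz_anti h (d := d) hkR')
  have h5 := h.sum d k
  have hrR : (∑ i, (r i : ℝ)) = n := by exact_mod_cast hr
  have h6 : (∑ i, (r i : ℝ) * w i) - n * k ≤ ∑ i, ((r i * (w i - k) : ℕ) : ℝ) := by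
    rw [← hrR, Finset.sum_mul, ← Finset.sum_sub_distrib]
    refine Finset.sum_le_sum fun i _ => ?_
    rw [← mul_sub, Nat.cast_mul]
    refine mul_le_mul_of_nonneg_left ?_ (Nat.cast_nonneg _)
    have : ((w i : ℤ) - k : ℤ) ≤ ((w i - k : ℕ) : ℤ) := by omega
    exact_mod_cast this
  have h7 : ((a' - a : ℤ) : ℝ) < ((∑ i, ((r i * (w i - k) : ℕ) : ℤ) : ℤ) : ℝ) := by
    rw [Int.cast_sum]
    simp only [Int.cast_natCast]
    push_cast at h3 h4 ⊢
    push_cast at h6
    linarith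
  exact_mod_cast h7

/-- the points of the rows -/
noncomputable def ft (q v : ℕ) (K : ℝ) (d : ℕ) (p : Σ _ : ℕ, ℕ) : ℤ × ℤ :=
  (2 * (d : ℤ) + ⌊zz q v K d p.1⌋ - p.2, p.1)

theorem ft_inj (q v : ℕ) (K : ℝ) (d : ℕ) : Function.Injective (ft q v K d) := by
  rintro ⟨l, i⟩ ⟨l', i'⟩ h
  simp only [ft, Prod.mk.injEq] at h
  obtain ⟨h1, h2⟩ := h
  have h3 : l = l' := by exact_mod_cast h2
  subst h3
  have h4 : i = i' := by omega
  subst h4
  rfl

theorem exists_W2 (h : Num2 q v n K σ) {d M : ℕ} {R : ℕ → ℕ}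
    (hR : ∀ l < M, (R l : ℝ) ≤ σ * d - (n - 3 * σ) / 2 - n * l)
    (hnest : ∀ k l : ℕ, k ≤ l → l < M → 2 * ((l : ℝ) - k) ≤ (R k : ℝ) - R l) :
    ∃ W : Finset (ℤ × ℤ), W.card = ∑ k ∈ Finset.range M, R k ∧
      (∀ q' ∈ W, q' ∈ FlS (HH q v K d)) ∧ (∀ q ∈ W, 0 ≤ q.2) ∧
      ∀ (k : ℕ), ∀ q ∈ W, ∀ q' ∈ W, (k : ℤ) ≤ q.2 → (k : ℤ) ≤ q'.2 →
        q'.1 - q.1 < (R k : ℤ) := by
  classical
  refine ⟨((Finset.range M).sigma fun k => Finset.range (R k)).image (ft q v K d), ?_, ?_, ?_, ?_⟩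
  · rw [Finset.card_image_of_injective _ (ft_inj q v K d), Finset.card_sigma]
    simp
  · intro q' hq
    rw [Finset.mem_image] at hq
    obtain ⟨⟨l, i⟩, hil, rfl⟩ := hq
    rw [Finset.mem_sigma, Finset.mem_range, Finset.mem_range] at hil
    obtain ⟨hl, hi⟩ := hil
    simp only at hl hi
    have h1 := hR l hl
    rw [← h.sum d l] at h1
    have hy := Int.lt_floor_add_one (yy v K d l)
    have hz := Int.lt_floor_add_one (zz q v K d l)
    have hz' := Int.floor_le (zz q v K d l)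
    have hy' := Int.floor_le (yy v K d l)
    obtain ⟨Z, hZ⟩ : ∃ Z : ℤ, Z = ⌊zz q v K d l⌋ := ⟨_, rfl⟩
    obtain ⟨Y, hY⟩ : ∃ Y : ℤ, Y = ⌊yy v K d l⌋ := ⟨_, rfl⟩
    rw [← hZ] at hz hz'
    rw [← hY] at hy hy'
    have h2 : (R l : ℤ) < Y + Z + 2 := by
      have : ((R l : ℤ) : ℝ) < ((Y + Z + 2 : ℤ) : ℝ) := by push_cast; linarith
      exact_mod_cast this
    obtain ⟨x, hx⟩ : ∃ x : ℤ, x = i - Z := ⟨_, rfl⟩
    have hxY : x ≤ Y := by omega
    have hxy : (x : ℝ) ≤ yy v K d l := (by exact_mod_cast hxY : (x : ℝ) ≤ Y).trans hy'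
    have hxZ : -x ≤ Z := by omega
    have hxz : -(x : ℝ) ≤ zz q v K d l := (by exact_mod_cast hxZ : -(x : ℝ) ≤ Z).trans hz'
    have e1 : ft q v K d ⟨l, i⟩ = (2 * (d : ℤ) - x, (l : ℤ)) := by
      unfold ft
      rw [← hZ, hx]
      ext
      · simp only; ring
      · rfl
    rw [e1]
    have hqv : (q : ℤ) * v = 2 := by exact_mod_cast h.num.hqv
    have hq1 : (1 : ℤ) ≤ q := by exact_mod_cast h.q1
    have hv1 : (1 : ℤ) ≤ v := by
      by_contra hcon
      have : (v : ℤ) = 0 := by omega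
      rw [this] at hqv
      omega
    have hK := h.num.hK
    have hvR : (0 : ℝ) ≤ v := Nat.cast_nonneg v
    have hlR : (0 : ℝ) ≤ l := Nat.cast_nonneg l
    have hLl : 0 ≤ (K + v) * l := mul_nonneg (by linarith) hlR
    have hvl : 0 ≤ (v : ℤ) * l := by positivity
    by_cases hx1 : 1 ≤ x
    · have hqx : x ≤ q * x := by nlinarith
      refine ⟨by simp, 0, ⟨le_rfl, ?_, Or.inl ⟨?_, ?_⟩⟩, ⟨?_, ?_, Or.inl ⟨?_, ?_⟩⟩⟩
      · simp only
        unfold yy at hxy
        push_cast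
        linarith
      · simp only
        linarith
      · simp only
        have e2 : 2 * (d : ℤ) - (2 * d - x) + v * 0 = x := by ring
        rw [e2]
        omega
      · simp only
        omega
      · simp only
        unfold yy at hxy
        push_cast
        linarith
      · simp only
        linarith
      · simp only
        have e2 : (q : ℤ) * (2 * (d : ℤ) - (2 * d - x) + v * (0 + l)) = q * x + (q * v) * l := by
          ring
        rw [e2, hqv]
        omega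
    · have hqx : (q : ℤ) * x ≤ 0 := by nlinarith
      have hvqx : (v : ℤ) * (1 - q * x) = v - 2 * x := by
        calc (v : ℤ) * (1 - q * x) = v - (q * v) * x := by ring
          _ = v - 2 * x := by rw [hqv]
      have hkey : (x : ℝ) + (K + v) * (1 - q * x + l) ≤ K * d / 3 := by
        unfold zz at hxz
        rw [le_div_iff₀ h.den] at hxz
        unfold yy at hxz
        linarith
      have hqR : (q : ℝ) * v = 2 := by exact_mod_cast hqv
      refine ⟨by simp, 1 - q * x, ⟨?_, ?_, Or.inl ⟨?_, ?_⟩⟩, ⟨?_, ?_, Or.inl ⟨?_, ?_⟩⟩⟩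
      · simp only
        omega
      · simp only
        push_cast
        linarith
      · simp only
        have e2 : 2 * (d : ℤ) - (2 * d - x) + v * (1 - q * x) = v - x := by
          rw [hvqx]; ring
        rw [e2]
        omega
      · simp only
        have e2 : (q : ℤ) * (2 * (d : ℤ) - (2 * d - x) + v * (1 - q * x)) = 2 - q * x := by
          rw [hvqx]
          calc (q : ℤ) * (2 * (d : ℤ) - (2 * d - x) + (v - 2 * x)) = q * v - q * x := by ring
            _ = 2 - q * x := by rw [hqv]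
        rw [e2]
        omega
      · simp only
        omega
      · simp only
        push_cast
        linarith
      · simp only
        have e2 : 2 * (d : ℤ) - (2 * d - x) + v * (1 - q * x + l) = v - x + v * l := by
          rw [mul_add, hvqx]; ring
        rw [e2]
        omega
      · simp only
        have e2 : (q : ℤ) * (2 * (d : ℤ) - (2 * d - x) + v * (1 - q * x + l)) =
            2 - q * x + 2 * l := by
          have hv3 : (v : ℤ) * (1 - q * x + l) = v - 2 * x + v * l := by rw [mul_add, hvqx]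
          rw [hv3]
          calc (q : ℤ) * (2 * (d : ℤ) - (2 * d - x) + (v - 2 * x + v * l)) =
              q * v - q * x + (q * v) * l := by ring
            _ = 2 - q * x + 2 * l := by rw [hqv]
        rw [e2]
        omega
  · intro q hq
    rw [Finset.mem_image] at hq
    obtain ⟨⟨l, i⟩, hil, rfl⟩ := hq
    simp [ft]
  · intro k q1 hq q1' hq' hk hk'
    rw [Finset.mem_image] at hq hq'
    obtain ⟨⟨l, i⟩, hil, rfl⟩ := hq
    obtain ⟨⟨l', i'⟩, hil', rfl⟩ := hq'
    rw [Finset.mem_sigma, Finset.mem_range, Finset.mem_range] at hil hil'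
    simp only [ft] at hk hk' hil hil' ⊢
    have hkl : k ≤ l := by exact_mod_cast hk
    have hkl' : k ≤ l' := by exact_mod_cast hk'
    have hkR : (k : ℝ) ≤ l := by exact_mod_cast hkl
    have hkR' : (k : ℝ) ≤ l' := by exact_mod_cast hkl'
    -- `⌊Z l'⌋ ≤ ⌊Z k⌋ ≤ ⌊Z l⌋ + (R k - R l)`
    have h1 : ⌊zz q v K d l'⌋ ≤ ⌊zz q v K d k⌋ := Int.floor_mono (zz_anti h hkR')
    have h2 : ⌊zz q v K d k⌋ ≤ ⌊zz q v K d l⌋ + ((R k : ℤ) - R l) := by
      rw [← Int.floor_add_intCast]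
      apply Int.floor_mono
      push_cast
      have h3 := zz_step h (d := d) hkR
      have h4 := hnest k l hkl hil.1
      linarith
    have h5 : (i : ℤ) < R l := by exact_mod_cast hil.2
    have h7 : (0 : ℤ) ≤ i' := Int.natCast_nonneg i'
    linarith

end

end Pool.Agent.TH518.CW
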