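import Pool.Agent.TH518.CW.TwoB
import Pool.Agent.TH518.CW.Fin

/-! Collisions of eleven and of thirteen points in every characteristic. -/

set_option autoImplicit false

namespace Pool.Agent.TH518.CW

open Pool.Agent.TH716.CF Pool.Agent.H932R2 Pool.Agent.H932R3 Pool.Agent.TH545.CF

universe u

theorem irr_sqrt {n : ℕ} (hn : ¬ IsSquare n) : Irrational (√(n : ℝ)) :=
  irrational_sqrt_natCast_iff.2 hn

theorem not_sq11 : ¬ IsSquare (11 : ℕ) := by
  rintro ⟨k, hk⟩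
  have : k < 4 := by nlinarith
  interval_cases k <;> omega

theorem not_sq13 : ¬ IsSquare (13 : ℕ) := by
  rintro ⟨k, hk⟩
  have : k < 4 := by nlinarith
  interval_cases k <;> omega

theorem irr_K {n : ℕ} (hn : ¬ IsSquare n) : Irrational ((9 + 3 * √(n : ℝ)) / 2) := by
  have h1 : (9 + 3 * √(n : ℝ)) / 2 = (((3 : ℕ) : ℝ) * √(n : ℝ) + ((9 : ℕ) : ℝ)) / ((2 : ℕ) : ℝ) := by
    push_cast
    ring
  rw [h1]
  exact (((irr_sqrt hn).natCast_mul (by norm_num)).add_natCast 9).div_natCast (by norm_num)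

theorem num2_13 : Num2 1 2 13 ((9 + 3 * √(13 : ℝ)) / 2) (√(13 : ℝ)) := by
  have hs : √(13 : ℝ) ^ 2 = 13 := Real.sq_sqrt (by norm_num)
  have h3 : 3 < √(13 : ℝ) := by
    rw [show (3 : ℝ) = √9 by rw [show (9 : ℝ) = 3 ^ 2 by norm_num]; exact (Real.sqrt_sq (by norm_num)).symm]
    exact Real.sqrt_lt_sqrt (by norm_num) (by norm_num)
  have h4 : √(13 : ℝ) < 4 := by nlinarith
  refine ⟨⟨by linarith, by linarith, rfl, ?_, ?_, ?_⟩, by push_cast; exact hs, h3, by ring,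
    by norm_num, le_rfl⟩
  · push_cast
    linear_combination (9 / 4) * hs
  · push_cast
    linear_combination (9 / 4) * hs
  · have := irr_K not_sq13
    push_cast at this
    exact this

theorem num2_11 : Num2 2 1 11 ((9 + 3 * √(11 : ℝ)) / 2) (√(11 : ℝ)) := by
  have hs : √(11 : ℝ) ^ 2 = 11 := Real.sq_sqrt (by norm_num)
  have h3 : 3 < √(11 : ℝ) := by
    rw [show (3 : ℝ) = √9 by rw [show (9 : ℝ) = 3 ^ 2 by norm_num]; exact (Real.sqrt_sq (by norm_num)).symm]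
    exact Real.sqrt_lt_sqrt (by norm_num) (by norm_num)
  have h4 : √(11 : ℝ) < 4 := by nlinarith
  refine ⟨⟨by linarith, by linarith, rfl, ?_, ?_, ?_⟩, by push_cast; exact hs, h3, by ring,
    by norm_num, by norm_num⟩
  · push_cast
    linear_combination (9 / 2) * hs
  · push_cast
    linear_combination (9 / 2) * hs
  · have := irr_K not_sq11
    push_cast at this
    exact this

/-- independence from the emptiness statement with simple points -/
theorem ind_of_emp {p : ℕ} {k : Type u} [Field k] [CharP k p] {r m d : ℕ} {τ : ℝ}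
    (h0 : 0 < τ) (h1 : τ < 1) (hle : r * (m + 1).choose 2 ≤ (d + 2).choose 2)
    (hE : EmpG p (fun o : Option (Fin ((d + 2).choose 2 - r * (m + 1).choose 2)) =>
      o.elim r fun _ => 1) (fun o => o.elim m fun _ => 1) (Tri d τ)) :
    ∃ F : MvPolynomial (Fin (r + 1)) k, F ≠ 0 ∧
      ∀ (c : k) (a : Fin r → k), MvPolynomial.eval (Fin.cons c a : Fin (r + 1) → k) F ≠ 0 →
        ∀ d' ≥ d, JetDim r m c a d' := by
  classical
  obtain ⟨L, _, _, c0, a0, lm, hlm⟩ := key_coll_v h0 h1 hE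
  have h2 := rows_of_forms (K := L) (r := r) (m := m) (d := d)
    (n := (d + 2).choose 2 - r * (m + 1).choose 2) (c0 := c0) (a0 := a0) (by
      rw [card_Tfin_choose, card_EE_eq']
      omega) lm (fun P hP hP' h3 => hlm P hP hP' h3)
  obtain ⟨F, hF, hF'⟩ := open_rank (L := k) p h2
  refine ⟨F, hF, fun c a hc d' hd' => ?_⟩
  have h3 := hF' c a hc
  rw [card_EE_eq'] at h3
  exact jet_indep h3 d' hd'

theorem sum_rows (n m : ℕ) : ∑ l ∈ Finset.range m, n * (m - l) = n * (m + 1).choose 2 := by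
  rw [← Finset.mul_sum]
  congr 1
  induction m with
  | zero => simp
  | succ m ih =>
    rw [Finset.sum_range_succ', Nat.choose_succ_succ' (m + 1) 1, ← ih]
    simp only [Nat.choose_one_right, Nat.sub_zero]
    rw [add_comm]
    congr 1
    refine Finset.sum_congr rfl fun i _ => ?_
    omega

theorem ind_two {q v n : ℕ} {K σ : ℝ} (h : Num2 q v n K σ) {p : ℕ} (hp : p = 0 ∨ p.Prime)
    {k : Type u} [Field k] [CharP k p] {m d : ℕ} (hn : 2 ≤ n)
    (hT : (n : ℝ) * m ≤ σ * d - (n - 3 * σ) / 2) :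
    ∃ F : MvPolynomial (Fin (n + 1)) k, F ≠ 0 ∧
      ∀ (c : k) (a : Fin n → k), MvPolynomial.eval (Fin.cons c a : Fin (n + 1) → k) F ≠ 0 →
        ∀ d' ≥ d, JetDim n m c a d' := by
  classical
  obtain ⟨W, hW, hWS, hW0, hrow⟩ := exists_W2 h (d := d) (M := m) (R := fun l => n * (m - l))
    (by
      intro l hl
      push_cast [Nat.cast_sub hl.le]
      linarith)
    (by
      intro k' l hkl hl
      push_cast [Nat.cast_sub hl.le, Nat.cast_sub (hkl.trans hl.le)]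
      have h1 : (k' : ℝ) ≤ l := by exact_mod_cast hkl
      have h2 : (2 : ℝ) ≤ n := by exact_mod_cast hn
      nlinarith)
  rw [sum_rows] at hW
  obtain ⟨hfin, hcard⟩ := hh_card h.num (d := d)
  have hWle : W.card ≤ (FlS (HH q v K d)).ncard := by
    rw [← Set.ncard_coe_finset W]
    exact Set.ncard_le_ncard (fun q hq => hWS q hq) hfin
  have hE := EmpG_add (v := (d + 2).choose 2 - n * (m + 1).choose 2) hp hfin hWS (by omega) hW0 hrow
  obtain ⟨t0, t1, _⟩ := num_tau h.num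
  exact ind_of_emp t0 t1 (by omega) (chain2 h.num hE)

theorem emp_two_coll {q v n : ℕ} {K σ : ℝ} (h : Num2 q v n K σ) {p : ℕ} (hp : p = 0 ∨ p.Prime)
    {k : Type u} [Field k] [CharP k p] {m d : ℕ} (hd : ¬ 3 ∣ d)
    (hT : σ * d - (n - 3 * σ) / 2 < (n : ℝ) * m) :
    ∃ F : MvPolynomial (Fin (n + 1)) k, F ≠ 0 ∧
      ∀ (c : k) (a : Fin n → k), MvPolynomial.eval (Fin.cons c a : Fin (n + 1) → k) F ≠ 0 →
        ∀ d' ≤ d, JetDim n m c a d' := by
  have hE := emp_two h hp (ι := Unit) (r := fun _ => n) (w := fun _ => m) hd (by simp)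
    (by simpa using hT)
  obtain ⟨t0, t1, _⟩ := num_tau h.num
  obtain ⟨L, _, _, c0, a0, h0⟩ := key_coll t0 t1 (chain2 h.num hE)
  obtain ⟨F, hF, hF'⟩ := coll_transfer (L := k) p (r := n) (m := m) (c0 := c0) (a0 := a0)
    (d := d) (fun P hP hP' => h0 P hP hP')
  refine ⟨F, hF, fun c a hc d' hd' => ?_⟩
  exact jet_full ((hF' c a hc).mono hd').rk d' le_rfl

/-- the threshold -/
theorem thr {n : ℕ} {σ : ℝ} (h1 : σ ^ 2 = n) (h3 : 3 < σ) (m d : ℕ) :
    (n : ℝ) * m ≤ σ * d - (n - 3 * σ) / 2 ↔ σ * (2 * m + 1) ≤ 2 * d + 3 := by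
  have e1 : σ * d - (n - 3 * σ) / 2 - (n : ℝ) * m = σ / 2 * (2 * d + 3 - σ * (2 * m + 1)) := by
    rw [← h1]; ring
  constructor
  · intro h
    have h2 : 0 ≤ σ / 2 * (2 * d + 3 - σ * (2 * m + 1)) := by rw [← e1]; linarith
    have h4 := nonneg_of_mul_nonneg_right h2 (by linarith)
    linarith
  · intro h
    have h2 : 0 ≤ σ / 2 * (2 * d + 3 - σ * (2 * m + 1)) := mul_nonneg (by linarith) (by linarith)
    rw [← e1] at h2
    linarith

theorem two_coll {q v n : ℕ} {K σ : ℝ} (h : Num2 q v n K σ) (hσ : σ = √(n : ℝ)) (hn : 10 ≤ n)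
    {m : ℕ} (k : Type u) [Field k] :
    ∃ F : MvPolynomial (Fin (n + 1)) k, F ≠ 0 ∧
      ∀ (c : k) (a : Fin n → k), MvPolynomial.eval (Fin.cons c a : Fin (n + 1) → k) F ≠ 0 →
        ∀ d : ℕ, (¬ 3 ∣ d ∨ (d : ℝ) ≤ √(n : ℝ) * m ∨ √(n : ℝ) * (2 * m + 1) ≤ 2 * d + 3) →
          JetDim n m c a d := by
  classical
  obtain ⟨p, hp⟩ := CharP.exists k
  have hp' : p = 0 ∨ p.Prime := (CharP.char_is_prime_or_zero k p).symm
  obtain ⟨F1, hF1, hF1'⟩ := coll_all (r := n) (m := m) hn k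
  -- independence
  have hex : ∃ d : ℕ, σ * (2 * m + 1) ≤ 2 * d + 3 := by
    obtain ⟨d, hd⟩ := exists_nat_ge (σ * (2 * m + 1))
    exact ⟨d, by have : (0 : ℝ) ≤ d := Nat.cast_nonneg d; linarith⟩
  have hs := Nat.find_spec hex
  obtain ⟨F2, hF2, hF2'⟩ := ind_two h hp' (k := k) (m := m) (d := Nat.find hex) (by omega)
    ((thr h.sg h.s3 _ _).2 hs)
  -- emptiness
  obtain ⟨F3, hF3, hF3'⟩ : ∃ F : MvPolynomial (Fin (n + 1)) k, F ≠ 0 ∧
      ∀ (c : k) (a : Fin n → k), MvPolynomial.eval (Fin.cons c a : Fin (n + 1) → k) F ≠ 0 →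
        ∀ d' : ℕ, ¬ 3 ∣ d' → d' < Nat.find hex → JetDim n m c a d' := by
    by_cases hex2 : ∃ d0 : ℕ, ¬ 3 ∣ d0 ∧ d0 < Nat.find hex ∧
        ∀ d', ¬ 3 ∣ d' → d' < Nat.find hex → d' ≤ d0
    · obtain ⟨d0, h1, h2, h3⟩ := hex2
      obtain ⟨F, hF, hF'⟩ := emp_two_coll h hp' (k := k) (m := m) (d := d0) h1
        (by
          rw [← not_le]
          intro h4
          exact Nat.find_min hex h2 ((thr h.sg h.s3 _ _).1 h4))
      exact ⟨F, hF, fun c a hc d' h4 h5 => hF' c a hc d' (h3 d' h4 h5)⟩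
    · refine ⟨1, one_ne_zero, fun c a _ d' h4 h5 => ?_⟩
      exfalso
      apply hex2
      obtain ⟨D, hD⟩ : ∃ D, D = Nat.find hex := ⟨_, rfl⟩
      rw [← hD] at h5 ⊢
      by_cases h6 : 3 ∣ D - 1
      · exact ⟨D - 2, by omega, by omega, fun d'' h7 h8 => by omega⟩
      · exact ⟨D - 1, h6, by omega, fun d'' h7 h8 => by omega⟩
  refine ⟨F1 * (F2 * F3), mul_ne_zero hF1 (mul_ne_zero hF2 hF3), fun c a hc d hd => ?_⟩
  rw [map_mul, map_mul] at hc
  have c1 := left_ne_zero_of_mul hc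
  have c2 := left_ne_zero_of_mul (right_ne_zero_of_mul hc)
  have c3 := right_ne_zero_of_mul (right_ne_zero_of_mul hc)
  by_cases hdD : Nat.find hex ≤ d
  · exact hF2' c a c2 d hdD
  · rcases hd with hd | hd | hd
    · exact hF3' c a c3 d hd (by omega)
    · exact hF1' c a c1 d (Or.inl hd)
    · exfalso
      apply hdD
      apply Nat.find_min' hex
      rw [hσ]
      exact hd

theorem eleven_coll {m : ℕ} (k : Type u) [Field k] :
    ∃ F : MvPolynomial (Fin (11 + 1)) k, F ≠ 0 ∧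
      ∀ (c : k) (a : Fin 11 → k), MvPolynomial.eval (Fin.cons c a : Fin (11 + 1) → k) F ≠ 0 →
        ∀ d : ℕ, (¬ 3 ∣ d ∨ (d : ℝ) ≤ √((11 : ℕ) : ℝ) * m ∨
          √((11 : ℕ) : ℝ) * (2 * m + 1) ≤ 2 * d + 3) → JetDim 11 m c a d :=
  two_coll num2_11 (by push_cast; rfl) (by norm_num) k

theorem thirteen_coll {m : ℕ} (k : Type u) [Field k] :
    ∃ F : MvPolynomial (Fin (13 + 1)) k, F ≠ 0 ∧
      ∀ (c : k) (a : Fin 13 → k), MvPolynomial.eval (Fin.cons c a : Fin (13 + 1) → k) F ≠ 0 →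
        ∀ d : ℕ, (¬ 3 ∣ d ∨ (d : ℝ) ≤ √((13 : ℕ) : ℝ) * m ∨
          √((13 : ℕ) : ℝ) * (2 * m + 1) ≤ 2 * d + 3) → JetDim 13 m c a d :=
  two_coll num2_13 (by push_cast; rfl) (by norm_num) k

end Pool.Agent.TH518.CW
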