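import Pool.Agent.TH518.CW.TwoC
import Pool.Agent.TH518.CW.FinQ

/-! Eleven and thirteen generic points in every characteristic. -/

set_option autoImplicit false

namespace Pool.Agent.TH518.CW

open MvPolynomial Pool.Agent.TH716.CF Pool.Agent.H932R5 Pool.Agent.TH545.CF

universe u

theorem surj_two {q v n : ℕ} {K σ : ℝ} (h : Num2 q v n K σ) {p : ℕ} (hp : p = 0 ∨ p.Prime)
    {k : Type u} [Field k] [CharP k p] {d b : ℕ} (hn : 2 ≤ n) {w : Fin n → ℕ}
    (hw : ∀ i, b ≤ w i ∧ w i ≤ b + 1)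
    (hd : ∑ i, (w i : ℝ) ≤ σ * d - (n - 3 * σ) / 2) {P : Fin n → Fin 2 → k}
    (hP : AlgebraicIndependent (⊥ : Subfield k) (fun q : Fin n × Fin 2 => P q.1 q.2)) :
    SurjAt (E := 1) w P d := by
  classical
  obtain ⟨R, hR⟩ : ∃ R : ℕ → ℕ, R = fun k => ∑ i, (w i - k) := ⟨_, rfl⟩
  have hRk : ∀ k, k < b + 1 → R k + n * k = ∑ i, w i := by
    intro k hk
    rw [hR]
    simp only
    have h1 : n * k = ∑ _i : Fin n, k := by simp
    rw [h1, ← Finset.sum_add_distrib]
    refine Finset.sum_congr rfl fun i _ => ?_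
    have := (hw i).1
    omega
  have hRkR : ∀ k, k < b + 1 → (R k : ℝ) + n * k = ∑ i, (w i : ℝ) := by
    intro k hk
    exact_mod_cast hRk k hk
  have hcard : ∑ k ∈ Finset.range (b + 1), R k = ∑ i, (w i + 1).choose 2 := by
    rw [hR]
    simp only
    rw [Finset.sum_comm]
    exact Finset.sum_congr rfl fun i _ => sum_sub_choose _ _ (hw i).2
  obtain ⟨W, hWc, hWS, hW0, hrow⟩ := exists_W2 h (d := d) (M := b + 1) (R := R)
    (by
      intro l hl
      have := hRkR l hl
      linarith)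
    (by
      intro k l hkl hl
      have h1 := hRkR k (by omega)
      have h2 := hRkR l hl
      have h3 : (k : ℝ) ≤ l := by exact_mod_cast hkl
      have h4 : (2 : ℝ) ≤ n := by exact_mod_cast hn
      have h5 : 2 * ((l : ℝ) - k) ≤ n * ((l : ℝ) - k) :=
        mul_le_mul_of_nonneg_right h4 (by linarith)
      linarith)
  rw [hcard] at hWc
  obtain ⟨hfin, hfc⟩ := hh_card h.num (d := d)
  have hWle : W.card ≤ (FlS (HH q v K d)).ncard := by
    rw [← Set.ncard_coe_finset W]
    exact Set.ncard_le_ncard (fun q hq => hWS q hq) hfin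
  have hE := EmpG_addF (v := (d + 2).choose 2 - ∑ i, (w i + 1).choose 2) (w := w) hp hfin hWS
    (by omega) hW0 (by
      intro k q hq q' hq' hk hk'
      have := hrow k q hq q' hq' hk hk'
      rw [hR] at this
      exact this)
  obtain ⟨t0, t1, _⟩ := num_tau h.num
  obtain ⟨L, _, _, x, hx⟩ := key_points t0 t1 (chain2 h.num hE)
  have h1 : SurjAt (E := 1) w (fun i => x (Sum.inl i)) d := by
    refine surjAt_of_forms (E := 1) (v := (d + 2).choose 2 - ∑ i, (w i + 1).choose 2)
      (x := fun i => x (Sum.inl i)) (y := fun j => x (Sum.inr j)) ?_ ?_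
    · show ∑ i, (w i + 1).choose 2 + ((d + 2).choose 2 - ∑ i, (w i + 1).choose 2) =
        (d + 2).choose 2
      omega
    · intro F hF hF1 hF2
      refine hx F hF ?_
      rintro (i | j)
      · rw [← Pool.Agent.H519R3.AC.hI_plane]
        exact hF1 i
      · rw [← Pool.Agent.H519R3.AC.hI_plane]
        exact hF2 j
  exact surjAt_transfer p h1 hP

theorem emp_two_points {q v n : ℕ} {K σ : ℝ} (h : Num2 q v n K σ) {k : Type u} [Field k]
    {P : Fin n → Fin 2 → k}
    (hP : AlgebraicIndependent (⊥ : Subfield k) (fun q : Fin n × Fin 2 => P q.1 q.2))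
    {w : Fin n → ℕ} {d : ℕ} (hd : ¬ 3 ∣ d) {F : MvPolynomial (Fin 3) k}
    (hF : F.IsHomogeneous d) (hne : F ≠ 0)
    (hi : ∀ i, F ∈ (Ideal.span {X 1 - C (P i 0) * X 0, X 2 - C (P i 1) * X 0} :
      Ideal (MvPolynomial (Fin 3) k)) ^ (w i)) :
    ∑ i, (w i : ℝ) ≤ σ * d - (n - 3 * σ) / 2 := by
  by_contra hcon
  rw [not_le] at hcon
  obtain ⟨p, hp⟩ := CharP.exists k
  have hp' : p = 0 ∨ p.Prime := (CharP.char_is_prime_or_zero k p).symm
  have hE := emp_two h hp' (ι := Fin n) (r := fun _ => 1) (w := w) hd (by simp)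
    (by simpa using hcon)
  obtain ⟨t0, t1, _⟩ := num_tau h.num
  obtain ⟨K', i1, i2, x, hx⟩ := key_points t0 t1 (chain2 h.num hE)
  have hx' : NoForm x w d := hx
  exact hne (hx'.generic p hP F hF hi)

/-- the parameters for eleven and for thirteen points -/
theorem exists_num {s : ℕ} (hs : s = 11 ∨ s = 13) :
    ∃ (q v : ℕ) (K : ℝ), Num2 q v s K (√(s : ℝ)) := by
  rcases hs with rfl | rfl
  · exact ⟨2, 1, _, by push_cast; exact num2_11⟩
  · exact ⟨1, 2, _, by push_cast; exact num2_13⟩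

end Pool.Agent.TH518.CW
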